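import Mathlib

/-!
# An exponential moment bound for random transversals
-/

set_option autoImplicit false

open Finset

namespace Pool.Agent.H71.Smooth

variable {J : Type*} [Fintype J] [DecidableEq J] {l : ℕ}

/-- Few choice functions `ρ` have a large cost of the row `j`. -/
lemma card_bad_row_le (hl : 0 < l) (j : J) (W : J → Fin l → Fin l → ℝ) {Λ m t K : ℝ}
    (hW0 : ∀ j' a b, 0 ≤ W j' a b) (hWΛ : ∀ j' a b, W j' a b ≤ Λ) (hdiag : ∀ a, W j a a = 0)
    (hrow : ∀ a, ∑ j', ∑ b, W j' a b ≤ l * m) (ht : 0 ≤ t) (htΛ : t * Λ ≤ 1) :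
    ((univ.filter fun ρ : J → Fin l => K < ∑ j', W j' (ρ j) (ρ j')).card : ℝ) ≤
      (l : ℝ) ^ Fintype.card J *
        Real.exp (t * m + Fintype.card J * (t * Λ) ^ 2 - t * K) := by
  have hl' : (0 : ℝ) < l := by exact_mod_cast hl
  have hΛ0 : 0 ≤ Λ := (hW0 j ⟨0, hl⟩ ⟨0, hl⟩).trans (hWΛ j ⟨0, hl⟩ ⟨0, hl⟩)
  set G : Fin l → J → Fin l → ℝ := fun a j' b =>
    if j' = j ∧ b ≠ a then 0 else Real.exp (t * W j' a b) with hG
  -- the exponential moment as a sum of products
  have h1 : ∀ ρ : J → Fin l, Real.exp (t * ∑ j', W j' (ρ j) (ρ j')) =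
      ∑ a, ∏ j', G a j' (ρ j') := by
    intro ρ
    rw [Finset.sum_eq_single (ρ j)]
    · rw [mul_sum, Real.exp_sum]
      refine prod_congr rfl fun j' _ => ?_
      simp only [hG]
      rw [if_neg]
      rintro ⟨rfl, h⟩
      exact h rfl
    · intro a _ ha
      refine prod_eq_zero (mem_univ j) ?_
      show (if j = j ∧ ρ j ≠ a then 0 else Real.exp (t * W j a (ρ j))) = 0
      rw [if_pos ⟨rfl, fun h => ha h.symm⟩]
    · intro h
      exact absurd (mem_univ _) h
  have h2 : ∑ ρ : J → Fin l, Real.exp (t * ∑ j', W j' (ρ j) (ρ j')) =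
      ∑ a, ∏ j', ∑ b, G a j' b := by
    rw [sum_congr rfl fun ρ _ => h1 ρ, sum_comm]
    refine sum_congr rfl fun a _ => ?_
    rw [Finset.prod_univ_sum, Fintype.piFinset_univ]
  -- one factor
  have h3 : ∀ a j', ∑ b, G a j' b ≤ (if j' = j then (1 / (l : ℝ)) else 1) *
      ((l : ℝ) * Real.exp (t * ((∑ b, W j' a b) / l) + (t * Λ) ^ 2)) := by
    intro a j'
    have hsum0 : 0 ≤ ∑ b, W j' a b := sum_nonneg fun b _ => hW0 _ _ _
    by_cases hj : j' = j
    · subst hj
      rw [if_pos rfl]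
      have h4 : ∑ b, G a j' b = 1 := by
        rw [Finset.sum_eq_single a]
        · simp [hG, hdiag]
        · intro b _ hb
          simp [hG, hb]
        · intro h
          exact absurd (mem_univ _) h
      rw [h4]
      have h5 : 0 ≤ t * ((∑ b, W j' a b) / l) + (t * Λ) ^ 2 := by positivity
      have h6 := Real.one_le_exp h5
      rw [← mul_assoc, one_div, inv_mul_cancel₀ hl'.ne', one_mul]
      exact h6
    · rw [if_neg hj, one_mul]
      have h4 : ∀ b, G a j' b ≤ 1 + t * W j' a b + (t * Λ) ^ 2 := by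
        intro b
        simp only [hG]
        rw [if_neg fun h => hj h.1]
        have h5 : t * W j' a b ≤ t * Λ := mul_le_mul_of_nonneg_left (hWΛ _ _ _) ht
        have h6 : 0 ≤ t * W j' a b := mul_nonneg ht (hW0 _ _ _)
        have h7 : |t * W j' a b| ≤ 1 := by
          rw [abs_of_nonneg h6]
          exact h5.trans htΛ
        have h8 := Real.abs_exp_sub_one_sub_id_le h7
        have h9 := (abs_le.mp h8).2
        have h10 : (t * W j' a b) ^ 2 ≤ (t * Λ) ^ 2 := pow_le_pow_left₀ h6 h5 2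
        linarith
      calc ∑ b, G a j' b ≤ ∑ b, (1 + t * W j' a b + (t * Λ) ^ 2) := sum_le_sum fun b _ => h4 b
        _ = (l : ℝ) * (t * ((∑ b, W j' a b) / l) + (t * Λ) ^ 2 + 1) := by
            rw [sum_add_distrib, sum_add_distrib, ← mul_sum]
            simp only [sum_const, card_univ, Fintype.card_fin, nsmul_eq_mul]
            field_simp
            ring
        _ ≤ (l : ℝ) * Real.exp (t * ((∑ b, W j' a b) / l) + (t * Λ) ^ 2) :=
            mul_le_mul_of_nonneg_left (Real.add_one_le_exp _) hl'.le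
  -- the product
  have h4 : ∀ a, ∏ j', ∑ b, G a j' b ≤ (1 / (l : ℝ)) * ((l : ℝ) ^ Fintype.card J *
      Real.exp (t * m + Fintype.card J * (t * Λ) ^ 2)) := by
    intro a
    have h5 : ∏ j', ∑ b, G a j' b ≤ ∏ j', (if j' = j then (1 / (l : ℝ)) else 1) *
        ((l : ℝ) * Real.exp (t * ((∑ b, W j' a b) / l) + (t * Λ) ^ 2)) := by
      refine prod_le_prod (fun j' _ => sum_nonneg fun b _ => ?_) fun j' _ => h3 a j'
      simp only [hG]
      split_ifs
      · exact le_rfl
      · exact (Real.exp_pos _).le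
    refine h5.trans ?_
    rw [prod_mul_distrib, prod_mul_distrib, prod_ite_eq' univ j, if_pos (mem_univ j), prod_const,
      card_univ, ← Real.exp_sum, sum_add_distrib, sum_const, card_univ, nsmul_eq_mul]
    have h6 : ∑ j', t * ((∑ b, W j' a b) / l) ≤ t * m := by
      rw [← mul_sum, ← sum_div]
      refine mul_le_mul_of_nonneg_left ?_ ht
      rw [div_le_iff₀ hl', mul_comm m]
      exact hrow a
    gcongr
  -- the count
  have h5 : ((univ.filter fun ρ : J → Fin l => K < ∑ j', W j' (ρ j) (ρ j')).card : ℝ) ≤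
      ∑ ρ : J → Fin l, Real.exp (t * ∑ j', W j' (ρ j) (ρ j') - t * K) := by
    rw [card_eq_sum_ones, Nat.cast_sum, sum_filter]
    refine sum_le_sum fun ρ _ => ?_
    split_ifs with h
    · rw [Nat.cast_one]
      refine Real.one_le_exp ?_
      have := mul_le_mul_of_nonneg_left h.le ht
      linarith
    · exact (Real.exp_pos _).le
  calc _ ≤ ∑ ρ : J → Fin l, Real.exp (t * ∑ j', W j' (ρ j) (ρ j') - t * K) := h5
    _ = (∑ ρ : J → Fin l, Real.exp (t * ∑ j', W j' (ρ j) (ρ j'))) * Real.exp (-(t * K)) := by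
        rw [sum_mul]
        refine sum_congr rfl fun ρ _ => ?_
        rw [← Real.exp_add, sub_eq_add_neg]
    _ ≤ (∑ _a : Fin l, (1 / (l : ℝ)) * ((l : ℝ) ^ Fintype.card J *
          Real.exp (t * m + Fintype.card J * (t * Λ) ^ 2))) * Real.exp (-(t * K)) := by
        rw [h2]
        exact mul_le_mul_of_nonneg_right (sum_le_sum fun a _ => h4 a) (Real.exp_pos _).le
    _ = _ := by
        rw [sum_const, card_univ, Fintype.card_fin, nsmul_eq_mul, sub_eq_add_neg,
          Real.exp_add (t * m + Fintype.card J * (t * Λ) ^ 2), ← mul_assoc (l : ℝ), one_div,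
          mul_inv_cancel₀ hl'.ne', one_mul, mul_assoc]

end Pool.Agent.H71.Smooth
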