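import Mathlib
import Pool.Agent.H86.Graphon.Spread

/-!
# The cost of the edges inside a set of vertices
-/

set_option autoImplicit false

open Finset

namespace Pool.Agent.H71.Smooth

open Pool.Agent.H86.Graphon

section

variable {V : Type*} [DecidableEq V]

/-- Twice a sum over the edges inside `T` is at most the sum over the ordered pairs. -/
lemma two_mul_sum_edges_le (T : Finset V) (φ : Sym2 V → ℝ) (hφ : ∀ e, 0 ≤ φ e) :
    2 * ∑ e ∈ edges T, φ e ≤ ∑ u ∈ T, ∑ v ∈ T, (if u = v then 0 else φ s(u, v)) := by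
  have h1 : ∑ u ∈ T, ∑ v ∈ T, (if u = v then 0 else φ s(u, v)) =
      ∑ p ∈ T.offDiag, φ s(p.1, p.2) := by
    rw [← sum_product' T T (fun u v => (if u = v then 0 else φ s(u, v)))]
    have h2 : T.offDiag = (T ×ˢ T).filter fun p => ¬ p.1 = p.2 := by
      ext ⟨u, v⟩
      simp only [mem_offDiag, mem_filter, mem_product]
      tauto
    rw [h2, sum_filter]
    refine sum_congr rfl fun p _ => ?_
    by_cases hp : p.1 = p.2
    · simp [hp]
    · simp [hp]
  have hmaps : ∀ p ∈ T.offDiag, s(p.1, p.2) ∈ edges T := by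
    rintro ⟨u, v⟩ hp
    rw [mem_offDiag] at hp
    exact mem_edges.mpr hp
  rw [h1, ← sum_fiberwise_of_maps_to hmaps, mul_sum]
  refine sum_le_sum fun e he => ?_
  induction e with
  | _ u v =>
    rw [mem_edges] at he
    obtain ⟨hu, hv, huv⟩ := he
    have hsub : ({(u, v), (v, u)} : Finset (V × V)) ⊆
        T.offDiag.filter fun p => s(p.1, p.2) = s(u, v) := by
      intro p hp
      rw [mem_insert, mem_singleton] at hp
      rw [mem_filter, mem_offDiag]
      rcases hp with rfl | rfl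
      · exact ⟨⟨hu, hv, huv⟩, rfl⟩
      · exact ⟨⟨hv, hu, huv.symm⟩, Sym2.eq_swap⟩
    have hne : (u, v) ≠ (v, u) := fun h => huv (Prod.mk.inj h).1
    calc 2 * φ s(u, v) = ∑ p ∈ ({(u, v), (v, u)} : Finset (V × V)), φ s(p.1, p.2) := by
          rw [sum_pair hne]
          simp only
          rw [Sym2.eq_swap (a := v) (b := u)]
          ring
      _ ≤ _ := sum_le_sum_of_subset_of_nonneg hsub fun p _ _ => hφ _

/-- If the costs of the rows of `S` are at most `K`, then the product of the inverse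
probabilities over the edges inside `T ⊆ S` is at most `exp (K / 2) ^ |T|`. -/
lemma prod_edges_le (S T : Finset V) (hTS : T ⊆ S) (c : Sym2 V → ℝ) (hc0 : ∀ e, 0 < c e)
    (hc1 : ∀ e, c e ≤ 1) {K : ℝ}
    (hrow : ∀ u ∈ S, ∑ v ∈ S, (if u = v then 0 else -Real.log (c s(u, v))) ≤ K) :
    ∏ e ∈ edges T, (c e)⁻¹ ≤ (Real.exp (K / 2)) ^ T.card := by
  have hφ : ∀ e, 0 ≤ -Real.log (c e) := fun e => by
    have := Real.log_nonpos (hc0 e).le (hc1 e)
    linarith
  have h1 : ∏ e ∈ edges T, (c e)⁻¹ = Real.exp (∑ e ∈ edges T, -Real.log (c e)) := by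
    rw [Real.exp_sum]
    refine prod_congr rfl fun e _ => ?_
    rw [Real.exp_neg, Real.exp_log (hc0 e)]
  rw [h1, ← Real.exp_nat_mul]
  refine Real.exp_le_exp.mpr ?_
  have h2 := two_mul_sum_edges_le T (fun e => -Real.log (c e)) hφ
  have h3 : ∑ u ∈ T, ∑ v ∈ T, (if u = v then 0 else -Real.log (c s(u, v))) ≤
      ∑ _u ∈ T, K := by
    refine sum_le_sum fun u hu => ?_
    refine le_trans (sum_le_sum_of_subset_of_nonneg hTS fun v _ _ => ?_) (hrow u (hTS hu))
    split_ifs
    · exact le_rfl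
    · exact hφ _
  rw [sum_const, nsmul_eq_mul] at h3
  linarith

end

end Pool.Agent.H71.Smooth
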