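import Mathlib

/-!
# A large set with bounded row averages
-/

set_option autoImplicit false

open Finset

namespace Pool.Agent.H71.Smooth

variable {V : Type*} [DecidableEq V]

/-- Removing a point from a set: the effect on the energy. -/
lemma sum_erase_energy (w : V → V → ℝ) (hsymm : ∀ u v, w u v = w v u)
    (hdiag : ∀ u, w u u = 0) (X : Finset V) {u : V} (hu : u ∈ X) :
    ∑ x ∈ X.erase u, ∑ y ∈ X.erase u, w x y =
      ∑ x ∈ X, ∑ y ∈ X, w x y - 2 * ∑ v ∈ X, w u v := by
  have h1 : ∀ x, ∑ y ∈ X.erase u, w x y = ∑ y ∈ X, w x y - w x u := by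
    intro x
    rw [← add_sum_erase X (fun y => w x y) hu]
    ring
  rw [sum_congr rfl fun x _ => h1 x, sum_sub_distrib]
  have h2 : ∑ x ∈ X.erase u, ∑ y ∈ X, w x y = ∑ x ∈ X, ∑ y ∈ X, w x y - ∑ y ∈ X, w u y := by
    rw [← add_sum_erase X (fun x => ∑ y ∈ X, w x y) hu]
    ring
  have h3 : ∑ x ∈ X.erase u, w x u = ∑ v ∈ X, w u v := by
    have h4 : ∑ v ∈ X, w u v = w u u + ∑ v ∈ X.erase u, w u v :=
      (add_sum_erase X (fun v => w u v) hu).symm
    rw [h4, hdiag, zero_add]
    exact sum_congr rfl fun x _ => hsymm x u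
  rw [h2, h3]
  ring

/-- **Regularisation.**  There is a large set `X` all of whose rows have an average cost that is
not much larger than the average cost of all pairs. -/
lemma exists_regular [Fintype V] [Nonempty V] (w : V → V → ℝ) (hsymm : ∀ u v, w u v = w v u)
    (hdiag : ∀ u, w u u = 0) (hw0 : ∀ u v, 0 ≤ w u v) {κ E₀ : ℝ} (hκ : 0 < κ) (hE0 : 0 ≤ E₀)
    (hE : ∑ u, ∑ v, w u v ≤ E₀ * (Fintype.card V : ℝ) ^ 2) :
    ∃ X : Finset V, X.Nonempty ∧ (Fintype.card V : ℝ) * Real.exp (-(E₀ / κ)) ≤ X.card ∧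
      ∀ u ∈ X, ∑ v ∈ X, w u v ≤ (X.card : ℝ) * (E₀ + κ / 2) := by
  classical
  set T : Finset V → ℝ := fun X => ∑ x ∈ X, ∑ y ∈ X, w x y with hT
  set F : Finset V → ℝ := fun X => T X / (X.card : ℝ) ^ 2 - κ * Real.log X.card with hF
  obtain ⟨X, hX, hmin⟩ := exists_min_image ((univ : Finset (Finset V)).filter fun X => X.Nonempty)
    F ⟨univ, mem_filter.mpr ⟨mem_univ _, univ_nonempty⟩⟩
  have hXne : X.Nonempty := (mem_filter.mp hX).2
  have hn0 : (0 : ℝ) < X.card := by exact_mod_cast hXne.card_pos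
  have hN0 : (0 : ℝ) < Fintype.card V := by exact_mod_cast Fintype.card_pos
  have hT0 : ∀ Y, 0 ≤ T Y := fun Y => sum_nonneg fun x _ => sum_nonneg fun y _ => hw0 x y
  have hFV : F univ ≤ E₀ - κ * Real.log (Fintype.card V) := by
    simp only [hF, hT, card_univ]
    have : (∑ x, ∑ y, w x y) / (Fintype.card V : ℝ) ^ 2 ≤ E₀ := by
      rw [div_le_iff₀ (by positivity)]
      exact hE
    linarith
  have hle : F X ≤ E₀ - κ * Real.log (Fintype.card V) :=
    (hmin univ (mem_filter.mpr ⟨mem_univ _, univ_nonempty⟩)).trans hFV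
  have hEX0 : 0 ≤ T X / (X.card : ℝ) ^ 2 := by
    have := hT0 X
    positivity
  have hlogle : Real.log X.card ≤ Real.log (Fintype.card V) := by
    refine Real.log_le_log hn0 ?_
    exact_mod_cast card_le_univ X
  have hlog : Real.log (Fintype.card V) - E₀ / κ ≤ Real.log X.card := by
    have h1 : T X / (X.card : ℝ) ^ 2 - κ * Real.log X.card ≤
        E₀ - κ * Real.log (Fintype.card V) := hle
    have h2 : κ * (Real.log (Fintype.card V) - Real.log X.card) ≤ E₀ := by linarith
    have h3 : Real.log (Fintype.card V) - Real.log X.card ≤ E₀ / κ := by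
      rw [le_div_iff₀ hκ]
      linarith
    linarith
  have hEX : T X / (X.card : ℝ) ^ 2 ≤ E₀ := by
    have h1 : T X / (X.card : ℝ) ^ 2 - κ * Real.log X.card ≤
        E₀ - κ * Real.log (Fintype.card V) := hle
    nlinarith
  refine ⟨X, hXne, ?_, ?_⟩
  · rw [← Real.exp_log hn0]
    nth_rewrite 1 [← Real.exp_log hN0]
    rw [← Real.exp_add]
    exact Real.exp_le_exp.mpr (by linarith)
  · intro u hu
    rcases Nat.lt_or_ge X.card 2 with h1 | h2
    · -- one point
      have hcard : X.card = 1 := by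
        have := hXne.card_pos
        omega
      obtain ⟨a, rfl⟩ := card_eq_one.mp hcard
      rw [mem_singleton] at hu
      subst hu
      rw [sum_singleton, hdiag]
      positivity
    · have hXe : (X.erase u).Nonempty := by
        rw [← card_pos, card_erase_of_mem hu]
        omega
      have hm := hmin (X.erase u) (mem_filter.mpr ⟨mem_univ _, hXe⟩)
      set n : ℝ := (X.card : ℝ) with hn
      have hn2 : (2 : ℝ) ≤ n := by
        rw [hn]
        exact_mod_cast h2
      have hcarde : ((X.erase u).card : ℝ) = n - 1 := by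
        rw [card_erase_of_mem hu, Nat.cast_sub (by omega)]
        simp [hn]
      simp only [hF] at hm
      rw [← hn, hcarde] at hm
      have hTe : T (X.erase u) = T X - 2 * ∑ v ∈ X, w u v := sum_erase_energy w hsymm hdiag X hu
      rw [hTe] at hm
      set s : ℝ := ∑ v ∈ X, w u v with hs
      set t : ℝ := T X with ht
      -- the logarithms
      have hlogdiff : Real.log n - Real.log (n - 1) ≤ 1 / (n - 1) := by
        rw [← Real.log_div (by linarith) (by linarith)]
        have h3 := Real.log_le_sub_one_of_pos (show (0 : ℝ) < n / (n - 1) by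
          apply div_pos <;> linarith)
        have hne : n - 1 ≠ 0 := by linarith
        have h4 : n / (n - 1) - 1 = 1 / (n - 1) := by
          rw [div_sub_one hne]
          congr 1
          ring
        linarith
      have hn1 : (0 : ℝ) < n - 1 := by linarith
      have h5 : t / n ^ 2 - κ / (n - 1) ≤ (t - 2 * s) / (n - 1) ^ 2 := by
        have h6 : κ * (Real.log n - Real.log (n - 1)) ≤ κ * (1 / (n - 1)) :=
          mul_le_mul_of_nonneg_left hlogdiff hκ.le
        have h7 : κ * (1 / (n - 1)) = κ / (n - 1) := by ring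
        linarith
      have h6 : (t / n ^ 2 - κ / (n - 1)) * (n - 1) ^ 2 ≤ t - 2 * s := by
        rwa [← le_div_iff₀ (by positivity)]
      have h7 : (t / n ^ 2 - κ / (n - 1)) * (n - 1) ^ 2 =
          t / n ^ 2 * (n - 1) ^ 2 - κ * (n - 1) := by
        field_simp
      have h8 : t / n ^ 2 ≤ E₀ := hEX
      have h9 : t = t / n ^ 2 * n ^ 2 := by
        field_simp
      have h10 : 2 * s ≤ t / n ^ 2 * (2 * n - 1) + κ * (n - 1) := by
        nlinarith
      have h11 : t / n ^ 2 * (2 * n - 1) ≤ E₀ * (2 * n) := by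
        have h12 : 0 ≤ t / n ^ 2 := hEX0
        calc t / n ^ 2 * (2 * n - 1) ≤ E₀ * (2 * n - 1) :=
              mul_le_mul_of_nonneg_right h8 (by linarith)
          _ ≤ E₀ * (2 * n) := mul_le_mul_of_nonneg_left (by linarith) hE0
      nlinarith

end Pool.Agent.H71.Smooth
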