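import Mathlib
import Pool.Agent.H71.Smooth.Moment
import Pool.Agent.H71.Smooth.Regular
import Pool.Agent.H71.Smooth.Chernoff

/-!
# Homogeneous sets in random colourings with non-degenerate probabilities
-/

set_option autoImplicit false

open Finset

namespace Pool.Agent.H71.Smooth

open Pool.Agent.H86.Graphon

section

variable {V : Type*} [DecidableEq V]

/-- The cost of the pair `u v`: minus the logarithm of the probability of the colour `b`. -/
noncomputable def cost (P : Sym2 V → ℝ) (b : Bool) (u v : V) : ℝ :=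
  if u = v then 0 else -Real.log (coin (P s(u, v)) b)

lemma cost_self (P : Sym2 V → ℝ) (b : Bool) (u : V) : cost P b u u = 0 := by
  simp [cost]

lemma cost_comm (P : Sym2 V → ℝ) (b : Bool) (u v : V) : cost P b u v = cost P b v u := by
  unfold cost
  rw [Sym2.eq_swap]
  by_cases h : u = v
  · simp [h]
  · rw [if_neg h, if_neg (Ne.symm h)]

lemma coin_mem {a p : ℝ} (h : p ∈ Set.Icc a (1 - a)) (b : Bool) :
    coin p b ∈ Set.Icc a (1 - a) := by
  unfold coin
  rcases b with _ | _
  · simp only [Bool.false_eq_true, if_false]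
    exact ⟨by linarith [h.2], by linarith [h.1]⟩
  · simpa using h

lemma cost_nonneg {P : Sym2 V → ℝ} {a : ℝ} (ha : 0 < a) (hP : ∀ e, P e ∈ Set.Icc a (1 - a))
    (b : Bool) (u v : V) : 0 ≤ cost P b u v := by
  unfold cost
  split_ifs
  · exact le_rfl
  · have h := coin_mem (hP s(u, v)) b
    have := Real.log_nonpos (ha.le.trans h.1) (h.2.trans (by linarith))
    linarith

lemma cost_le {P : Sym2 V → ℝ} {a : ℝ} (ha : 0 < a) (ha1 : a ≤ 1)
    (hP : ∀ e, P e ∈ Set.Icc a (1 - a)) (b : Bool) (u v : V) : cost P b u v ≤ -Real.log a := by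
  unfold cost
  split_ifs
  · have := Real.log_nonpos ha.le ha1
    linarith
  · have h := coin_mem (hP s(u, v)) b
    have := Real.log_le_log ha h.1
    linarith

end

section

variable {V J : Type*} [Fintype V] [DecidableEq V] [Fintype J] [DecidableEq J] {l : ℕ}

omit [Fintype V] [DecidableEq J] in
/-- A transversal has `|J|` elements. -/
lemma card_transversal {φ : J → Fin l → V}
    (hφ : Function.Injective fun p : J × Fin l => φ p.1 p.2) (ρ : J → Fin l) :
    (transversal φ ρ).card = Fintype.card J := by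
  unfold transversal
  rw [card_image_of_injective, card_univ]
  intro j j' h
  have := @hφ (j, ρ j) (j', ρ j') h
  exact (Prod.mk.inj this).1

omit [Fintype V] [DecidableEq J] in
/-- The sum over a transversal. -/
lemma sum_transversal {φ : J → Fin l → V}
    (hφ : Function.Injective fun p : J × Fin l => φ p.1 p.2) (ρ : J → Fin l) (g : V → ℝ) :
    ∑ v ∈ transversal φ ρ, g v = ∑ j, g (φ j (ρ j)) := by
  unfold transversal
  rw [sum_image]
  intro j _ j' _ h
  have := @hφ (j, ρ j) (j', ρ j') h
  exact (Prod.mk.inj this).1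

omit [Fintype V] in
/-- At least half of the choice functions have rows of cost at most `K`. -/
theorem exists_good {P : Sym2 V → ℝ} {a : ℝ} (ha : 0 < a) (ha1 : a ≤ 1)
    (hP : ∀ e, P e ∈ Set.Icc a (1 - a)) (b : Bool) (hl : 0 < l) (φ : J → Fin l → V) {m t K : ℝ}
    (hrow : ∀ j x, ∑ j', ∑ y, cost P b (φ j x) (φ j' y) ≤ l * m) (ht : 0 ≤ t)
    (htΛ : t * (-Real.log a) ≤ 1)
    (hbad : (Fintype.card J : ℝ) *
      Real.exp (t * m + Fintype.card J * (t * (-Real.log a)) ^ 2 - t * K) ≤ 1 / 2) :
    ∃ s : Finset (J → Fin l), l ^ Fintype.card J ≤ 2 * s.card ∧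
      ∀ ρ ∈ s, ∀ j, ∑ j', cost P b (φ j (ρ j)) (φ j' (ρ j')) ≤ K := by
  classical
  set s : Finset (J → Fin l) := univ.filter fun ρ =>
    ∀ j, ∑ j', cost P b (φ j (ρ j)) (φ j' (ρ j')) ≤ K with hs
  have hcompl : ((univ.filter fun ρ : J → Fin l => ¬ ∀ j,
      ∑ j', cost P b (φ j (ρ j)) (φ j' (ρ j')) ≤ K).card : ℝ) ≤
      (l : ℝ) ^ Fintype.card J * (1 / 2) := by
    have h1 : (univ.filter fun ρ : J → Fin l => ¬ ∀ j,
        ∑ j', cost P b (φ j (ρ j)) (φ j' (ρ j')) ≤ K) ⊆
        univ.biUnion fun j => univ.filter fun ρ : J → Fin l =>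
          K < ∑ j', cost P b (φ j (ρ j)) (φ j' (ρ j')) := by
      intro ρ hρ
      rw [mem_filter] at hρ
      obtain ⟨-, hρ⟩ := hρ
      push Not at hρ
      obtain ⟨j, hj⟩ := hρ
      rw [mem_biUnion]
      exact ⟨j, mem_univ _, mem_filter.mpr ⟨mem_univ _, hj⟩⟩
    calc _ ≤ ((univ.biUnion fun j => univ.filter fun ρ : J → Fin l =>
          K < ∑ j', cost P b (φ j (ρ j)) (φ j' (ρ j'))).card : ℝ) := by
            exact_mod_cast card_le_card h1
      _ ≤ ∑ j : J, ((univ.filter fun ρ : J → Fin l =>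
          K < ∑ j', cost P b (φ j (ρ j)) (φ j' (ρ j'))).card : ℝ) := by
            exact_mod_cast card_biUnion_le
      _ ≤ ∑ _j : J, (l : ℝ) ^ Fintype.card J *
          Real.exp (t * m + Fintype.card J * (t * (-Real.log a)) ^ 2 - t * K) := by
            refine sum_le_sum fun j _ => ?_
            exact card_bad_row_le hl j (fun j' x y => cost P b (φ j x) (φ j' y))
              (fun j' x y => cost_nonneg ha hP b _ _) (fun j' x y => cost_le ha ha1 hP b _ _)
              (fun x => cost_self P b _) (fun x => hrow j x) ht htΛ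
      _ = (l : ℝ) ^ Fintype.card J * ((Fintype.card J : ℝ) *
          Real.exp (t * m + Fintype.card J * (t * (-Real.log a)) ^ 2 - t * K)) := by
            rw [sum_const, card_univ, nsmul_eq_mul]
            ring
      _ ≤ _ := mul_le_mul_of_nonneg_left hbad (by positivity)
  have hhalf : l ^ Fintype.card J ≤ 2 * s.card := by
    have h1 : s.card + (univ.filter fun ρ : J → Fin l => ¬ ∀ j,
        ∑ j', cost P b (φ j (ρ j)) (φ j' (ρ j')) ≤ K).card = l ^ Fintype.card J := by
      rw [hs, card_filter_add_card_filter_not, card_univ, Fintype.card_fun, Fintype.card_fin]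
    have h2 : (s.card : ℝ) + ((univ.filter fun ρ : J → Fin l => ¬ ∀ j,
        ∑ j', cost P b (φ j (ρ j)) (φ j' (ρ j')) ≤ K).card : ℝ) = (l : ℝ) ^ Fintype.card J := by
      exact_mod_cast h1
    have h3 : (l : ℝ) ^ Fintype.card J ≤ 2 * s.card := by linarith
    exact_mod_cast h3
  exact ⟨s, hhalf, fun ρ hρ j => (mem_filter.mp hρ).2 j⟩

end

end Pool.Agent.H71.Smooth
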