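import Mathlib
import Pool.Agent.H71.Smooth.Core

/-!
# A robust second moment method

We bound the probability that the colouring can be changed in at most `M` edges so that none of
the given sets of edges is monochromatic.
-/

set_option autoImplicit false

open Finset

namespace Pool.Agent.H71.Smooth

open Pool.Agent.H86.Graphon

section

variable {E : Type*} [Fintype E] [DecidableEq E]

/-- **Robust second moment method.** -/
lemma robust_moment {P : E → ℝ} (hP : ∀ e, P e ∈ Set.Icc (0 : ℝ) 1) (b : Bool)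
    {ι : Type*} (s : Finset ι) (hs : s.Nonempty) (C : ι → Finset E)
    (hpos : ∀ i ∈ s, ∀ e ∈ C i, 0 < coin (P e) b) {M : ℝ} (hM : 0 ≤ M) :
    prob P {c | ∃ c' : E → Bool, (hammingDist c c' : ℝ) ≤ M ∧ ∀ i ∈ s, ∃ e ∈ C i, c' e ≠ b} ≤
      4 * (M + 1) * ((∑ i ∈ s, ∑ j ∈ s,
        ((C i ∩ C j).card : ℝ) * ∏ e ∈ C i ∩ C j, (coin (P e) b)⁻¹) / (s.card : ℝ) ^ 2) := by
  classical
  set Y : ι → (E → Bool) → ℝ := fun i c =>
    ∏ e, (if e ∈ C i then (if c e = b then (coin (P e) b)⁻¹ else 0) else 1) with hY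
  set μ : (E → Bool) → ℝ := fun c => ∏ e, coin (P e) (c e) with hμ
  have hμ0 : ∀ c, 0 ≤ μ c := fun c => prod_coin_nonneg hP c
  have hμ1 : ∑ c, μ c = 1 := sum_prod_coin_one P
  have hY0 : ∀ i ∈ s, ∀ c, 0 ≤ Y i c := by
    intro i hi c
    refine prod_nonneg fun e _ => ?_
    by_cases he : e ∈ C i
    · rw [if_pos he]
      split_ifs
      · exact inv_nonneg.mpr (hpos i hi e he).le
      · exact le_rfl
    · rw [if_neg he]
      exact zero_le_one
  have hexp : ∀ (p : ℝ) (g : Bool → ℝ), p * g true + (1 - p) * g false =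
      coin p b * g b + coin p (!b) * g (!b) := by
    intro p g
    rcases b with _ | _ <;> simp [coin, add_comm]
  have hsumcoin : ∀ p : ℝ, coin p b + coin p (!b) = 1 := by
    intro p
    rcases b with _ | _ <;> simp [coin]
  have hcle : ∀ e, coin (P e) b ≤ 1 := by
    intro e
    have h1 := hsumcoin (P e)
    have h2 := coin_nonneg (hP e) (!b)
    linarith
  have hE1 : ∀ i ∈ s, ∑ c, μ c * Y i c = 1 := by
    intro i hi
    have h := sum_prod_coin P
      (fun e x => (if e ∈ C i then (if x = b then (coin (P e) b)⁻¹ else 0) else 1))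
    rw [hμ, hY]
    rw [h]
    refine prod_eq_one fun e _ => ?_
    rw [hexp (P e) (fun x => (if e ∈ C i then (if x = b then (coin (P e) b)⁻¹ else 0) else 1))]
    by_cases he : e ∈ C i
    · simp [he, (hpos i hi e he).ne']
    · simp [he, hsumcoin]
  have hE2 : ∀ i ∈ s, ∀ j ∈ s, ∑ c, μ c * (Y i c * Y j c) =
      ∏ e ∈ C i ∩ C j, (coin (P e) b)⁻¹ := by
    intro i hi j hj
    have h := sum_prod_coin P
      (fun e x => (if e ∈ C i then (if x = b then (coin (P e) b)⁻¹ else 0) else 1) *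
        (if e ∈ C j then (if x = b then (coin (P e) b)⁻¹ else 0) else 1))
    have h2 : ∑ c, μ c * (Y i c * Y j c) =
        ∏ e, (if e ∈ C i ∩ C j then (coin (P e) b)⁻¹ else 1) := by
      rw [hμ, hY]
      simp only [← prod_mul_distrib]
      simp only [← prod_mul_distrib] at h
      rw [h]
      refine prod_congr rfl fun e _ => ?_
      rw [hexp (P e) (fun x => (if e ∈ C i then (if x = b then (coin (P e) b)⁻¹ else 0) else 1) *
        (if e ∈ C j then (if x = b then (coin (P e) b)⁻¹ else 0) else 1))]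
      by_cases he : e ∈ C i <;> by_cases he' : e ∈ C j
      · simp [he, he', (hpos i hi e he).ne']
      · simp [he, he', (hpos i hi e he).ne']
      · simp [he, he', (hpos j hj e he').ne']
      · simp [he, he', hsumcoin]
    rw [h2, prod_ite_mem_eq]
  have hcard : (0 : ℝ) < s.card := by exact_mod_cast hs.card_pos
  -- the average, and the weights of the edges
  set X : (E → Bool) → ℝ := fun c => (∑ i ∈ s, Y i c) / s.card with hX
  set W : E → (E → Bool) → ℝ := fun e c => ∑ i ∈ s, (if e ∈ C i then Y i c else 0) with hW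
  set R : (E → Bool) → ℝ := fun c => (∑ e, W e c ^ 2) / (s.card : ℝ) ^ 2 with hR
  set Q : ℝ := (∑ i ∈ s, ∑ j ∈ s,
    ((C i ∩ C j).card : ℝ) * ∏ e ∈ C i ∩ C j, (coin (P e) b)⁻¹) / (s.card : ℝ) ^ 2 with hQ
  have hX1 : ∑ c, μ c * X c = 1 := by
    have : ∑ c, μ c * X c = (∑ i ∈ s, ∑ c, μ c * Y i c) / s.card := by
      rw [sum_comm, sum_div]
      refine sum_congr rfl fun c _ => ?_
      rw [hX]
      simp only
      rw [mul_div_assoc', mul_sum]
    rw [this, sum_congr rfl hE1]
    simp [hcard.ne']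
  have hX2 : ∑ c, μ c * (X c) ^ 2 =
      (∑ i ∈ s, ∑ j ∈ s, ∏ e ∈ C i ∩ C j, (coin (P e) b)⁻¹) / (s.card : ℝ) ^ 2 := by
    have : ∑ c, μ c * (X c) ^ 2 = (∑ i ∈ s, ∑ j ∈ s, ∑ c, μ c * (Y i c * Y j c)) /
        (s.card : ℝ) ^ 2 := by
      have h5 : ∀ c, μ c * (X c) ^ 2 = (∑ i ∈ s, ∑ j ∈ s, μ c * (Y i c * Y j c)) /
          (s.card : ℝ) ^ 2 := by
        intro c
        rw [hX]
        simp only
        rw [div_pow, mul_div_assoc', sq (∑ i ∈ s, Y i c), sum_mul_sum, mul_sum]
        simp_rw [mul_sum]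
      rw [sum_congr rfl fun c _ => h5 c, ← sum_div]
      congr 1
      rw [sum_comm]
      refine sum_congr rfl fun i _ => ?_
      rw [sum_comm]
    rw [this]
    congr 1
    exact sum_congr rfl fun i hi => sum_congr rfl fun j hj => hE2 i hi j hj
  have hR2 : ∑ c, μ c * R c = Q := by
    have h1 : ∀ c, μ c * R c = (∑ i ∈ s, ∑ j ∈ s,
        ((C i ∩ C j).card : ℝ) * (μ c * (Y i c * Y j c))) / (s.card : ℝ) ^ 2 := by
      intro c
      rw [hR]
      simp only
      rw [mul_div_assoc']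
      congr 1
      have h2 : ∀ e, W e c ^ 2 = ∑ i ∈ s, ∑ j ∈ s,
          (if e ∈ C i ∩ C j then Y i c * Y j c else 0) := by
        intro e
        rw [hW]
        simp only
        rw [sq, sum_mul_sum]
        refine sum_congr rfl fun i _ => sum_congr rfl fun j _ => ?_
        by_cases he : e ∈ C i <;> by_cases he' : e ∈ C j <;> simp [he, he']
      rw [sum_congr rfl fun e _ => h2 e, sum_comm, mul_sum]
      refine sum_congr rfl fun i _ => ?_
      rw [sum_comm, mul_sum]
      refine sum_congr rfl fun j _ => ?_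
      rw [← sum_filter, sum_const, nsmul_eq_mul, filter_mem_eq_inter, univ_inter]
      ring
    rw [sum_congr rfl fun c _ => h1 c, ← sum_div, hQ]
    congr 1
    rw [sum_comm]
    refine sum_congr rfl fun i hi => ?_
    rw [sum_comm]
    refine sum_congr rfl fun j hj => ?_
    rw [← mul_sum, hE2 i hi j hj]
  have hvar : ∑ c, μ c * (X c) ^ 2 - 1 ≤ Q := by
    rw [hX2, hQ, sub_le_iff_le_add, div_add_one (by positivity)]
    apply div_le_div_of_nonneg_right _ (by positivity)
    have h1 : (s.card : ℝ) ^ 2 = ∑ _i ∈ s, ∑ _j ∈ s, (1 : ℝ) := by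
      simp only [sum_const, nsmul_eq_mul, mul_one]
      ring
    rw [h1, ← sum_add_distrib]
    refine sum_le_sum fun i hi => ?_
    rw [← sum_add_distrib]
    refine sum_le_sum fun j hj => ?_
    rcases (C i ∩ C j).eq_empty_or_nonempty with h | h
    · rw [h]
      simp
    · have h2 : (1 : ℝ) ≤ ((C i ∩ C j).card : ℝ) := by exact_mod_cast h.card_pos
      have h3 : 0 ≤ ∏ e ∈ C i ∩ C j, (coin (P e) b)⁻¹ :=
        prod_nonneg fun e he => inv_nonneg.mpr (hpos i hi e (mem_inter.mp he).1).le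
      nlinarith
  -- the event
  have hev : ∀ c, (if c ∈ {c : E → Bool | ∃ c' : E → Bool, (hammingDist c c' : ℝ) ≤ M ∧
      ∀ i ∈ s, ∃ e ∈ C i, c' e ≠ b} then μ c else 0) ≤
      μ c * (4 * (X c - 1) ^ 2 + 4 * M * R c) := by
    intro c
    have hR0 : 0 ≤ R c := div_nonneg (sum_nonneg fun e _ => sq_nonneg _) (by positivity)
    split_ifs with hc
    · obtain ⟨c', hc', hno⟩ := hc
      set F : Finset E := univ.filter fun e => c e ≠ c' e with hF
      have hFcard : (F.card : ℝ) ≤ M := hc'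
      have h1 : ∑ i ∈ s, Y i c ≤ ∑ e ∈ F, W e c := by
        rw [hW]
        simp only
        rw [sum_comm]
        refine sum_le_sum fun i hi => ?_
        by_cases h0 : Y i c = 0
        · rw [h0]
          exact sum_nonneg fun e _ => by split_ifs <;> exact le_rfl
        · obtain ⟨e, he, hce⟩ := hno i hi
          have hcb : c e = b := by
            by_contra hne
            apply h0
            rw [hY]
            simp only
            refine prod_eq_zero (mem_univ e) ?_
            rw [if_pos he, if_neg hne]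
          have heF : e ∈ F := by
            rw [hF, mem_filter]
            exact ⟨mem_univ _, fun h => hce (by rw [← h]; exact hcb)⟩
          calc Y i c = (if e ∈ C i then Y i c else 0) := by rw [if_pos he]
            _ ≤ ∑ e ∈ F, (if e ∈ C i then Y i c else 0) :=
              single_le_sum (f := fun e => (if e ∈ C i then Y i c else 0))
                (fun e' _ => by
                  split_ifs
                  · exact hY0 i hi c
                  · exact le_rfl) heF
      have h2 : (∑ i ∈ s, Y i c) ^ 2 ≤ M * ∑ e, W e c ^ 2 := by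
        calc (∑ i ∈ s, Y i c) ^ 2 ≤ (∑ e ∈ F, W e c) ^ 2 :=
              pow_le_pow_left₀ (sum_nonneg fun i hi => hY0 i hi c) h1 2
          _ ≤ F.card * ∑ e ∈ F, W e c ^ 2 := sq_sum_le_card_mul_sum_sq
          _ ≤ M * ∑ e, W e c ^ 2 := by
              refine mul_le_mul hFcard ?_ (sum_nonneg fun e _ => sq_nonneg _) hM
              exact sum_le_sum_of_subset_of_nonneg (subset_univ _) fun e _ _ => sq_nonneg _
      have h3 : X c ^ 2 ≤ M * R c := by
        rw [hX, hR]
        simp only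
        rw [div_pow, mul_div_assoc']
        exact div_le_div_of_nonneg_right h2 (by positivity)
      have h4 : 1 ≤ 4 * (X c - 1) ^ 2 + 4 * M * R c := by
        nlinarith [sq_nonneg (2 * X c - 1)]
      calc μ c = μ c * 1 := (mul_one _).symm
        _ ≤ _ := mul_le_mul_of_nonneg_left h4 (hμ0 c)
    · refine mul_nonneg (hμ0 c) ?_
      have := mul_nonneg hM hR0
      nlinarith [sq_nonneg (X c - 1)]
  calc prob P {c | ∃ c' : E → Bool, (hammingDist c c' : ℝ) ≤ M ∧ ∀ i ∈ s, ∃ e ∈ C i, c' e ≠ b}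
      = ∑ c, (if c ∈ {c : E → Bool | ∃ c' : E → Bool, (hammingDist c c' : ℝ) ≤ M ∧
          ∀ i ∈ s, ∃ e ∈ C i, c' e ≠ b} then μ c else 0) := by
        unfold prob
        refine sum_congr rfl fun c _ => ?_
        congr
    _ ≤ ∑ c, μ c * (4 * (X c - 1) ^ 2 + 4 * M * R c) := sum_le_sum fun c _ => hev c
    _ = 4 * (∑ c, μ c * (X c) ^ 2 - 1) + 4 * M * Q := by
        have : ∀ c, μ c * (4 * (X c - 1) ^ 2 + 4 * M * R c) =
            4 * (μ c * (X c) ^ 2) - 8 * (μ c * X c) + 4 * μ c + 4 * M * (μ c * R c) := by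
          intro c; ring
        rw [sum_congr rfl fun c _ => this c, sum_add_distrib, sum_add_distrib, sum_sub_distrib,
          ← mul_sum, ← mul_sum, ← mul_sum, ← mul_sum, hX1, hμ1, hR2]
        ring
    _ ≤ 4 * Q + 4 * M * Q := by linarith
    _ = 4 * (M + 1) * Q := by ring

end

section

variable {V J : Type*} [DecidableEq V] [Fintype J] [DecidableEq J] {l : ℕ}

/-- Summing a function of the size of the intersection of two transversals. -/
lemma sum_inter_fun_le {φ : J → Fin l → V}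
    (hφ : Function.Injective fun p : J × Fin l => φ p.1 p.2) (hl : 0 < l)
    (s : Finset (J → Fin l)) (hs : l ^ Fintype.card J ≤ 2 * s.card) (G : ℕ → ℝ)
    (hG : ∀ t, 0 ≤ G t) (ρ : J → Fin l) :
    ∑ ρ' ∈ s, G (transversal φ ρ ∩ transversal φ ρ').card ≤
      2 * (s.card : ℝ) * ∑ t ∈ range (Fintype.card J + 1),
        ((Fintype.card J).choose t : ℝ) * (G t / (l : ℝ) ^ t) := by
  classical
  have hl' : (0 : ℝ) < l := by exact_mod_cast hl
  have h1 : ∀ ρ' : J → Fin l, G (transversal φ ρ ∩ transversal φ ρ').card ≤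
      ∑ T ∈ (transversal φ ρ).powerset, if T ⊆ transversal φ ρ' then G T.card else 0 := by
    intro ρ'
    have hmem : transversal φ ρ ∩ transversal φ ρ' ∈ (transversal φ ρ).powerset :=
      mem_powerset.mpr inter_subset_left
    refine le_trans (le_of_eq ?_) (single_le_sum
      (f := fun T => if T ⊆ transversal φ ρ' then G T.card else 0) (fun T _ => ?_) hmem)
    · rw [if_pos inter_subset_right]
    · split_ifs
      · exact hG _
      · exact le_rfl
  have h2 : ∀ T : Finset V, ∑ ρ' ∈ s, (if T ⊆ transversal φ ρ' then G T.card else 0) ≤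
      2 * (s.card : ℝ) * (G T.card / (l : ℝ) ^ T.card) := by
    intro T
    rw [← sum_filter, sum_const, nsmul_eq_mul]
    have h3 : (s.filter fun ρ' => T ⊆ transversal φ ρ').card ≤
        (univ.filter fun ρ' : J → Fin l => T ⊆ transversal φ ρ').card :=
      card_le_card (filter_subset_filter _ (subset_univ _))
    have h4 := card_transversal_le hφ T
    have h5 : ((s.filter fun ρ' => T ⊆ transversal φ ρ').card : ℝ) * (l : ℝ) ^ T.card ≤
        2 * s.card := by
      have : (s.filter fun ρ' => T ⊆ transversal φ ρ').card * l ^ T.card ≤ 2 * s.card :=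
        ((Nat.mul_le_mul_right _ h3).trans h4).trans hs
      exact_mod_cast this
    rw [mul_div_assoc', le_div_iff₀ (pow_pos hl' _)]
    calc _ = (((s.filter fun ρ' => T ⊆ transversal φ ρ').card : ℝ) * (l : ℝ) ^ T.card) *
          G T.card := by ring
      _ ≤ (2 * s.card) * G T.card := mul_le_mul_of_nonneg_right h5 (hG _)
  calc ∑ ρ' ∈ s, G (transversal φ ρ ∩ transversal φ ρ').card
      ≤ ∑ ρ' ∈ s, ∑ T ∈ (transversal φ ρ).powerset,
          (if T ⊆ transversal φ ρ' then G T.card else 0) := sum_le_sum fun ρ' _ => h1 ρ'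
    _ = ∑ T ∈ (transversal φ ρ).powerset, ∑ ρ' ∈ s,
          (if T ⊆ transversal φ ρ' then G T.card else 0) := sum_comm
    _ ≤ ∑ T ∈ (transversal φ ρ).powerset, 2 * (s.card : ℝ) * (G T.card / (l : ℝ) ^ T.card) :=
        sum_le_sum fun T _ => h2 T
    _ = _ := by
        rw [← mul_sum, sum_powerset_apply_card (fun t => G t / (l : ℝ) ^ t),
          card_transversal hφ ρ]
        simp only [nsmul_eq_mul]

end

section

variable {V J : Type*} [Fintype V] [DecidableEq V] [Fintype J] [DecidableEq J] {l : ℕ}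

/-- **Main robust estimate.** -/
theorem prob_robust_le {P : Sym2 V → ℝ} {a : ℝ} (ha : 0 < a) (ha1 : a ≤ 1)
    (hP : ∀ e, P e ∈ Set.Icc a (1 - a)) (b : Bool) (hl : 0 < l) (φ : J → Fin l → V)
    (hφ : Function.Injective fun p : J × Fin l => φ p.1 p.2) {m t K : ℝ}
    (hrow : ∀ j x, ∑ j', ∑ y, cost P b (φ j x) (φ j' y) ≤ l * m) (ht : 0 ≤ t)
    (htΛ : t * (-Real.log a) ≤ 1) (hK : 0 ≤ K)
    (hbad : (Fintype.card J : ℝ) *
      Real.exp (t * m + Fintype.card J * (t * (-Real.log a)) ^ 2 - t * K) ≤ 1 / 2)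
    {M : ℝ} (hM : 0 ≤ M) :
    prob P {c | ∃ c' : Sym2 V → Bool, (hammingDist c c' : ℝ) ≤ M ∧
      ¬ ∃ T : Finset V, T.card = Fintype.card J ∧
      ∀ u ∈ T, ∀ v ∈ T, u ≠ v → c' s(u, v) = b} ≤
      8 * (M + 1) * (Fintype.card J : ℝ) ^ 2 * ∑ i ∈ range (Fintype.card J + 1),
        ((Fintype.card J).choose i : ℝ) * ((if 2 ≤ i then
          min (Real.exp (K / 2) ^ i) (a⁻¹ ^ (i ^ 2)) else 0) / (l : ℝ) ^ i) := by
  classical
  have hP01 : ∀ e, P e ∈ Set.Icc (0 : ℝ) 1 := fun e =>
    ⟨ha.le.trans (hP e).1, (hP e).2.trans (by linarith)⟩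
  have hcpos : ∀ e, 0 < coin (P e) b := fun e => ha.trans_le (coin_mem (hP e) b).1
  have hcle : ∀ e, coin (P e) b ≤ 1 := fun e => (coin_mem (hP e) b).2.trans (by linarith)
  have hl' : (0 : ℝ) < l := by exact_mod_cast hl
  obtain ⟨s, hhalf, hsrow⟩ := exists_good ha ha1 hP b hl φ hrow ht htΛ hbad
  have hsne : s.Nonempty := by
    rw [← card_pos]
    have : 0 < l ^ Fintype.card J := pow_pos hl _
    omega
  have hcard : (0 : ℝ) < s.card := by exact_mod_cast hsne.card_pos
  set k : ℕ := Fintype.card J with hk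
  have hB : (1 : ℝ) ≤ Real.exp (K / 2) := Real.one_le_exp (by linarith)
  have ha' : 1 ≤ a⁻¹ := (one_le_inv₀ ha).mpr ha1
  set G : ℕ → ℝ := fun i => (k : ℝ) ^ 2 * (if 2 ≤ i then
    min (Real.exp (K / 2) ^ i) (a⁻¹ ^ (i ^ 2)) else 0) with hG
  have hG0 : ∀ i, 0 ≤ G i := by
    intro i
    simp only [hG]
    split_ifs
    · positivity
    · simp
  have hterm : ∀ ρ ∈ s, ∀ ρ' ∈ s,
      ((edges (transversal φ ρ) ∩ edges (transversal φ ρ')).card : ℝ) *
      ∏ e ∈ edges (transversal φ ρ) ∩ edges (transversal φ ρ'), (coin (P e) b)⁻¹ ≤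
        G (transversal φ ρ ∩ transversal φ ρ').card := by
    intro ρ hρ ρ' _
    set T : Finset V := transversal φ ρ ∩ transversal φ ρ' with hT
    have hTk : T.card ≤ k :=
      (card_le_card inter_subset_left).trans (card_transversal hφ ρ).le
    have hEcard : (edges (transversal φ ρ) ∩ edges (transversal φ ρ')).card ≤
        T.card.choose 2 := by
      rw [← card_edges]
      exact card_le_card (edges_inter_subset _ _)
    by_cases h2 : 2 ≤ T.card
    · have h1 : ∏ e ∈ edges (transversal φ ρ) ∩ edges (transversal φ ρ'), (coin (P e) b)⁻¹ ≤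
          ∏ e ∈ edges T, (coin (P e) b)⁻¹ := by
        rw [← prod_sdiff (edges_inter_subset (transversal φ ρ) (transversal φ ρ'))]
        refine le_mul_of_one_le_left (prod_nonneg fun e _ => (inv_pos.mpr (hcpos e)).le) ?_
        calc (1 : ℝ) = ∏ _e ∈ edges (transversal φ ρ ∩ transversal φ ρ') \
              (edges (transversal φ ρ) ∩ edges (transversal φ ρ')), (1 : ℝ) := by
                rw [prod_const_one]
          _ ≤ _ := prod_le_prod (fun _ _ => zero_le_one) fun e _ =>
              (one_le_inv₀ (hcpos e)).mpr (hcle e)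
      have h3 : ∏ e ∈ edges T, (coin (P e) b)⁻¹ ≤ Real.exp (K / 2) ^ T.card := by
        refine prod_edges_le (transversal φ ρ) _ inter_subset_left (fun e => coin (P e) b)
          hcpos hcle fun u hu => ?_
        obtain ⟨j, rfl⟩ := mem_transversal.mp hu
        rw [sum_transversal hφ]
        exact hsrow ρ hρ j
      have h4 : ∏ e ∈ edges T, (coin (P e) b)⁻¹ ≤ a⁻¹ ^ (T.card ^ 2) := by
        calc ∏ e ∈ edges T, (coin (P e) b)⁻¹ ≤ ∏ _e ∈ edges T, a⁻¹ :=
              prod_le_prod (fun e _ => (inv_pos.mpr (hcpos e)).le) fun e _ =>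
                inv_anti₀ ha (coin_mem (hP e) b).1
          _ = a⁻¹ ^ (T.card.choose 2) := by rw [prod_const, card_edges]
          _ ≤ a⁻¹ ^ (T.card ^ 2) := by
              refine pow_le_pow_right₀ ha' ?_
              exact Nat.choose_le_pow _ _
      have h5 : ((edges (transversal φ ρ) ∩ edges (transversal φ ρ')).card : ℝ) ≤
          (k : ℝ) ^ 2 := by
        have h6 : (edges (transversal φ ρ) ∩ edges (transversal φ ρ')).card ≤ k ^ 2 :=
          hEcard.trans ((Nat.choose_le_pow _ _).trans (Nat.pow_le_pow_left hTk 2))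
        exact_mod_cast h6
      simp only [hG]
      rw [if_pos h2]
      refine mul_le_mul h5 (le_min (h1.trans h3) (h1.trans h4)) ?_ (by positivity)
      exact prod_nonneg fun e _ => (inv_pos.mpr (hcpos e)).le
    · have h3 : (edges (transversal φ ρ) ∩ edges (transversal φ ρ')).card = 0 := by
        rw [Nat.choose_eq_zero_of_lt (by omega)] at hEcard
        omega
      rw [h3, Nat.cast_zero, zero_mul]
      exact hG0 _
  have hsum : ∑ ρ ∈ s, ∑ ρ' ∈ s,
      ((edges (transversal φ ρ) ∩ edges (transversal φ ρ')).card : ℝ) *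
      ∏ e ∈ edges (transversal φ ρ) ∩ edges (transversal φ ρ'), (coin (P e) b)⁻¹ ≤
      (s.card : ℝ) * (2 * (s.card : ℝ) * ∑ i ∈ range (k + 1),
        ((k.choose i : ℕ) : ℝ) * (G i / (l : ℝ) ^ i)) := by
    calc _ ≤ ∑ ρ ∈ s, ∑ ρ' ∈ s, G (transversal φ ρ ∩ transversal φ ρ').card :=
          sum_le_sum fun ρ hρ => sum_le_sum fun ρ' hρ' => hterm ρ hρ ρ' hρ'
      _ ≤ ∑ _ρ ∈ s, 2 * (s.card : ℝ) * ∑ i ∈ range (k + 1),
          ((k.choose i : ℕ) : ℝ) * (G i / (l : ℝ) ^ i) :=
          sum_le_sum fun ρ _ => sum_inter_fun_le hφ hl s hhalf G hG0 ρ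
      _ = _ := by rw [sum_const, nsmul_eq_mul]
  have hmain := robust_moment hP01 b s hsne (fun ρ => edges (transversal φ ρ))
    (fun _ _ e _ => hcpos e) hM
  have hset : {c : Sym2 V → Bool | ∃ c' : Sym2 V → Bool, (hammingDist c c' : ℝ) ≤ M ∧
      ¬ ∃ T : Finset V, T.card = k ∧
      ∀ u ∈ T, ∀ v ∈ T, u ≠ v → c' s(u, v) = b} ⊆
      {c | ∃ c' : Sym2 V → Bool, (hammingDist c c' : ℝ) ≤ M ∧
        ∀ ρ ∈ s, ∃ e ∈ edges (transversal φ ρ), c' e ≠ b} := by
    rintro c ⟨c', hc', hno⟩
    refine ⟨c', hc', fun ρ _ => ?_⟩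
    by_contra hcon
    push Not at hcon
    refine hno ⟨transversal φ ρ, card_transversal hφ ρ, fun u hu v hv huv => ?_⟩
    exact hcon _ (mem_edges.mpr ⟨hu, hv, huv⟩)
  have hfac : ∑ i ∈ range (k + 1), ((k.choose i : ℕ) : ℝ) * (G i / (l : ℝ) ^ i) =
      (k : ℝ) ^ 2 * ∑ i ∈ range (k + 1), ((k.choose i : ℕ) : ℝ) * ((if 2 ≤ i then
          min (Real.exp (K / 2) ^ i) (a⁻¹ ^ (i ^ 2)) else 0) / (l : ℝ) ^ i) := by
    rw [mul_sum]
    refine sum_congr rfl fun i _ => ?_
    simp only [hG]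
    ring
  calc _ ≤ prob P {c | ∃ c' : Sym2 V → Bool, (hammingDist c c' : ℝ) ≤ M ∧
        ∀ ρ ∈ s, ∃ e ∈ edges (transversal φ ρ), c' e ≠ b} := prob_mono hP01 hset
    _ ≤ _ := hmain
    _ ≤ 4 * (M + 1) * (((s.card : ℝ) * (2 * (s.card : ℝ) * ∑ i ∈ range (k + 1),
        ((k.choose i : ℕ) : ℝ) * (G i / (l : ℝ) ^ i))) / (s.card : ℝ) ^ 2) := by gcongr
    _ = 8 * (M + 1) * ∑ i ∈ range (k + 1), ((k.choose i : ℕ) : ℝ) * (G i / (l : ℝ) ^ i) := by
        field_simp
        ring
    _ = _ := by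
        rw [hfac]
        ring

end

end Pool.Agent.H71.Smooth
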