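import Mathlib
import Pool.Agent.H71.Smooth.Robust
import Pool.Agent.H86.Graphon.Random

/-!
# Random colourings with non-degenerate probabilities: the theorem
-/

set_option autoImplicit false

open Finset Filter Topology

namespace Pool.Agent.H71.Smooth

open Pool.Agent.H86.Graphon

section

variable {V : Type*} [Fintype V] [DecidableEq V]

/-- One of the two colours has average cost at most `A / 2`. -/
lemma exists_colour {P : Sym2 V → ℝ} {A N : ℝ}
    (hA : ∑ u, ∑ v, (if u = v then 0 else -Real.log (P s(u, v)) - Real.log (1 - P s(u, v))) ≤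
      A * N) :
    ∃ b : Bool, ∑ u, ∑ v, cost P b u v ≤ A / 2 * N := by
  have h1 : ∑ u, ∑ v, cost P true u v + ∑ u, ∑ v, cost P false u v =
      ∑ u, ∑ v, (if u = v then 0 else -Real.log (P s(u, v)) - Real.log (1 - P s(u, v))) := by
    rw [← sum_add_distrib]
    refine sum_congr rfl fun u _ => ?_
    rw [← sum_add_distrib]
    refine sum_congr rfl fun v _ => ?_
    unfold cost
    by_cases h : u = v
    · simp [h]
    · simp [h, coin, sub_eq_add_neg]
  rcases le_total (∑ u, ∑ v, cost P true u v) (∑ u, ∑ v, cost P false u v) with h | h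
  · exact ⟨true, by linarith⟩
  · exact ⟨false, by linarith⟩

end

/-- The sum in the robust estimate is small. -/
lemma sum_terms_le {k l t₀ : ℕ} {B a q : ℝ} (hl : 0 < l) (hB : 0 ≤ B) (ha : 0 < a) (ha1 : a ≤ 1)
    (hkl : (k : ℝ) / l ≤ 1) (hq : (k : ℝ) * (B / l) ≤ q) (hq1 : q ≤ 1) :
    ∑ i ∈ range (k + 1), (k.choose i : ℝ) * ((if 2 ≤ i then
      min (B ^ i) (a⁻¹ ^ (i ^ 2)) else 0) / (l : ℝ) ^ i) ≤
      (k + 1) * (((k : ℝ) / l) ^ 2 * a⁻¹ ^ (t₀ ^ 2) + q ^ t₀) := by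
  have hl' : (0 : ℝ) < l := by exact_mod_cast hl
  have ha' : 1 ≤ a⁻¹ := (one_le_inv₀ ha).mpr ha1
  have hq0 : 0 ≤ q := le_trans (by positivity) hq
  have hterm : ∀ i ∈ range (k + 1), (k.choose i : ℝ) * ((if 2 ≤ i then
      min (B ^ i) (a⁻¹ ^ (i ^ 2)) else 0) / (l : ℝ) ^ i) ≤
      ((k : ℝ) / l) ^ 2 * a⁻¹ ^ (t₀ ^ 2) + q ^ t₀ := by
    intro i _
    have hpos1 : 0 ≤ ((k : ℝ) / l) ^ 2 * a⁻¹ ^ (t₀ ^ 2) := by positivity
    have hpos2 : 0 ≤ q ^ t₀ := by positivity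
    have hch : (k.choose i : ℝ) ≤ (k : ℝ) ^ i := by exact_mod_cast Nat.choose_le_pow k i
    by_cases h2 : 2 ≤ i
    · rw [if_pos h2]
      rcases le_or_gt i t₀ with hi | hi
      · have h1 : (k.choose i : ℝ) * (min (B ^ i) (a⁻¹ ^ (i ^ 2)) / (l : ℝ) ^ i) ≤
            ((k : ℝ) / l) ^ 2 * a⁻¹ ^ (t₀ ^ 2) := by
          calc (k.choose i : ℝ) * (min (B ^ i) (a⁻¹ ^ (i ^ 2)) / (l : ℝ) ^ i)
              ≤ (k : ℝ) ^ i * (a⁻¹ ^ (t₀ ^ 2) / (l : ℝ) ^ i) := by
                refine mul_le_mul hch ?_ (by positivity) (by positivity)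
                refine div_le_div_of_nonneg_right ?_ (by positivity)
                refine (min_le_right _ _).trans (pow_le_pow_right₀ ha' ?_)
                exact Nat.pow_le_pow_left hi 2
            _ = ((k : ℝ) / l) ^ i * a⁻¹ ^ (t₀ ^ 2) := by
                rw [div_pow]
                ring
            _ ≤ _ := by
                refine mul_le_mul_of_nonneg_right ?_ (by positivity)
                exact pow_le_pow_of_le_one (by positivity) hkl h2
        linarith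
      · have h1 : (k.choose i : ℝ) * (min (B ^ i) (a⁻¹ ^ (i ^ 2)) / (l : ℝ) ^ i) ≤ q ^ t₀ := by
          calc (k.choose i : ℝ) * (min (B ^ i) (a⁻¹ ^ (i ^ 2)) / (l : ℝ) ^ i)
              ≤ (k : ℝ) ^ i * (B ^ i / (l : ℝ) ^ i) := by
                refine mul_le_mul hch ?_ (by positivity) (by positivity)
                exact div_le_div_of_nonneg_right (min_le_left _ _) (by positivity)
            _ = ((k : ℝ) * (B / l)) ^ i := by
                rw [mul_pow, div_pow]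
            _ ≤ q ^ i := pow_le_pow_left₀ (by positivity) hq i
            _ ≤ q ^ t₀ := pow_le_pow_of_le_one hq0 hq1 hi.le
        linarith
    · rw [if_neg h2, zero_div, mul_zero]
      linarith
  calc _ ≤ ∑ _i ∈ range (k + 1), (((k : ℝ) / l) ^ 2 * a⁻¹ ^ (t₀ ^ 2) + q ^ t₀) :=
        sum_le_sum hterm
    _ = _ := by
        rw [sum_const, card_range, nsmul_eq_mul]
        push_cast
        ring

/-- `C (log n) ^ j ≤ n ^ s` for large `n`. -/
lemma eventually_log_pow_le (C : ℝ) {j : ℕ} (hj : 0 < j) {s : ℝ} (hs : 0 < s) :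
    ∀ᶠ n : ℕ in atTop, C * (Real.log n) ^ j ≤ (n : ℝ) ^ s := by
  have hj' : (0 : ℝ) < j := by exact_mod_cast hj
  have h1 := (isLittleO_log_rpow_atTop (show 0 < s / j by positivity)).comp_tendsto
    (tendsto_natCast_atTop_atTop (R := ℝ))
  have hK : 0 < (|C| + 1)⁻¹ := by positivity
  filter_upwards [h1.bound hK, eventually_ge_atTop 1] with n hn hn1
  have hn1' : (1 : ℝ) ≤ n := by exact_mod_cast hn1
  have hn0 : (0 : ℝ) < n := by linarith
  have hL : 0 ≤ Real.log n := Real.log_nonneg hn1'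
  have hna : 0 ≤ (n : ℝ) ^ (s / j) := by positivity
  simp only [Function.comp, Real.norm_eq_abs] at hn
  rw [abs_of_nonneg hL, abs_of_nonneg hna] at hn
  have h2 : (|C| + 1) * Real.log n ≤ (n : ℝ) ^ (s / j) := by
    rw [inv_mul_eq_div, le_div_iff₀ (by positivity)] at hn
    linarith
  have h3 : ((n : ℝ) ^ (s / j)) ^ j = (n : ℝ) ^ s := by
    rw [← Real.rpow_natCast, ← Real.rpow_mul hn0.le, div_mul_cancel₀ _ hj'.ne']
  have h4 : C ≤ (|C| + 1) ^ j := by
    have h5 : |C| + 1 ≤ (|C| + 1) ^ j :=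
      le_self_pow₀ (by linarith [abs_nonneg C]) hj.ne'
    linarith [le_abs_self C]
  calc C * Real.log n ^ j ≤ (|C| + 1) ^ j * Real.log n ^ j :=
        mul_le_mul_of_nonneg_right h4 (by positivity)
    _ = ((|C| + 1) * Real.log n) ^ j := by rw [mul_pow]
    _ ≤ ((n : ℝ) ^ (s / j)) ^ j := pow_le_pow_left₀ (by positivity) h2 j
    _ = _ := h3

/-- `k exp (-c k) ≤ 1 / 2` for large `k`. -/
lemma exists_mul_exp_le {c : ℝ} (hc : 0 < c) :
    ∃ x₀ : ℝ, ∀ x : ℝ, x₀ ≤ x → x * Real.exp (-(c * x)) ≤ 1 / 2 := by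
  have h1 : Tendsto (fun x : ℝ => (c * x) ^ 1 * Real.exp (-(c * x))) atTop (𝓝 0) :=
    (Real.tendsto_pow_mul_exp_neg_atTop_nhds_zero 1).comp
      (tendsto_id.const_mul_atTop hc)
  have h2 := (tendsto_order.mp h1).2 (c / 2) (by positivity)
  obtain ⟨x₀, hx₀⟩ := eventually_atTop.mp h2
  refine ⟨x₀, fun x hx => ?_⟩
  have h3 := hx₀ x hx
  rw [pow_one] at h3
  have h4 : c * (x * Real.exp (-(c * x))) < c * (1 / 2) := by linarith
  exact (lt_of_mul_lt_mul_left h4 hc.le).le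

/-- Extracting an array from a regular set. -/
lemma exists_array {V : Type*} [DecidableEq V] (X : Finset V) {k l : ℕ}
    (hkl : k * l ≤ X.card) :
    ∃ φ : Fin k → Fin l → V, (Function.Injective fun p : Fin k × Fin l => φ p.1 p.2) ∧
      ∀ j x, φ j x ∈ X := by
  have h1 : Fintype.card (Fin k × Fin l) ≤ Fintype.card X := by
    rw [Fintype.card_prod, Fintype.card_fin, Fintype.card_fin, Fintype.card_coe]
    exact hkl
  obtain ⟨f⟩ := Function.Embedding.nonempty_of_card_le h1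
  refine ⟨fun j x => (f (j, x) : V), ?_, fun j x => (f (j, x)).2⟩
  intro p q hpq
  exact f.injective (Subtype.ext hpq)

/-- The sum over an array in `X` is at most the sum over `X`. -/
lemma sum_array_le {V : Type*} [DecidableEq V] (X : Finset V) {k l : ℕ}
    (φ : Fin k → Fin l → V) (hφ : Function.Injective fun p : Fin k × Fin l => φ p.1 p.2)
    (hX : ∀ j x, φ j x ∈ X) (g : V → ℝ) (hg : ∀ v, 0 ≤ g v) :
    ∑ j, ∑ x, g (φ j x) ≤ ∑ v ∈ X, g v := by
  have h1 : ∑ j, ∑ x, g (φ j x) = ∑ p : Fin k × Fin l, g (φ p.1 p.2) :=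
    (Fintype.sum_prod_type (fun p : Fin k × Fin l => g (φ p.1 p.2))).symm
  have h2 : ∑ p : Fin k × Fin l, g (φ p.1 p.2) =
      ∑ v ∈ univ.image (fun p : Fin k × Fin l => φ p.1 p.2), g v := by
    rw [sum_image fun p _ q _ h => hφ h]
  rw [h1, h2]
  refine sum_le_sum_of_subset_of_nonneg ?_ fun v _ _ => hg v
  intro v hv
  obtain ⟨p, -, rfl⟩ := mem_image.mp hv
  exact hX _ _

/-- **The theorem**, for `1 ≤ A ≤ 2 log (1 / a)` and `ε ≤ 1`. -/
theorem core_bound {a ε η : ℝ} (ha : 0 < a) (ha1 : a ≤ 1 / 2) (hε : 0 < ε) (hε1 : ε ≤ 1)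
    (hη : 0 < η) (hη2 : η ≤ 2) :
    ∀ᶠ n : ℕ in atTop, ∀ P : Sym2 (Fin n) → ℝ, (∀ e, P e ∈ Set.Icc a (1 - a)) →
      ∀ A : ℝ, 1 ≤ A → A ≤ 2 * (-Real.log a) →
      ∑ u, ∑ v, (if u = v then 0 else -Real.log (P s(u, v)) - Real.log (1 - P s(u, v))) ≤
        A * (n : ℝ) ^ 2 →
      prob P {c | ∃ c' : Sym2 (Fin n) → Bool, (hammingDist c c' : ℝ) ≤ (n : ℝ) ^ (2 - η) ∧
        ¬ HasHomogeneousSet c' ((4 - ε) * Real.log n / A)} ≤ (n : ℝ) ^ (-(η / 2)) := by
  set Λ : ℝ := -Real.log a with hΛ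
  have hΛ0 : 0 < Λ := by
    have := Real.log_neg ha (by linarith)
    linarith
  set κ : ℝ := ε / (40 * (1 + Λ)) with hκ
  have hκ0 : 0 < κ := by positivity
  have hκ1 : κ ≤ 1 := by
    rw [hκ, div_le_one (by positivity)]
    nlinarith
  have hκΛ : κ * (1 + Λ) = ε / 40 := by
    rw [hκ]
    field_simp
  set η₁ : ℝ := ε / 40 with hη₁
  have hη₁0 : 0 < η₁ := by positivity
  set t : ℝ := η₁ / (2 * Λ ^ 2 + η₁ * Λ) with ht
  have ht0 : 0 < t := by positivity
  have htΛ : t * Λ ≤ 1 := by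
    rw [ht, div_mul_eq_mul_div, div_le_one (by positivity)]
    nlinarith [sq_nonneg Λ]
  set c : ℝ := t * η₁ - (t * Λ) ^ 2 with hc
  have hc0 : 0 < c := by
    have h1 : t * Λ ^ 2 ≤ η₁ / 2 := by
      rw [ht, div_mul_eq_mul_div, div_le_div_iff₀ (by positivity) (by norm_num)]
      nlinarith [mul_pos hη₁0 (mul_pos hη₁0 hΛ0)]
    have h2 : c = t * (η₁ - t * Λ ^ 2) := by rw [hc]; ring
    rw [h2]
    exact mul_pos ht0 (by linarith)
  obtain ⟨x₀, hx₀⟩ := exists_mul_exp_le hc0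
  set D : ℝ := Real.exp (Λ / κ) with hD
  have hD1 : 1 ≤ D := Real.one_le_exp (by positivity)
  set t₀ : ℕ := ⌈20 / ε⌉₊ with ht₀
  have ht₀' : 20 / ε ≤ t₀ := Nat.le_ceil _
  set E₀ : ℝ := a⁻¹ ^ (t₀ ^ 2) with hE₀
  have hE₀1 : 1 ≤ E₀ := one_le_pow₀ ((one_le_inv₀ ha).mpr (by linarith))
  filter_upwards [eventually_ge_atTop 3, eventually_log_pow_le (200 * D * Real.exp (Λ / 2 + 1))
      two_pos (by positivity : 0 < ε / 20), eventually_log_pow_le (50 * D * (1 / κ)) two_pos one_pos,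
      eventually_log_pow_le (11000000 * D ^ 2 * E₀) (by norm_num : 0 < 7)
        (by positivity : 0 < η / 2),
      (Real.tendsto_log_atTop.comp (tendsto_natCast_atTop_atTop (R := ℝ))).eventually_ge_atTop
        (2 * Λ * (|x₀| + 1) / 3)] with n hn3 hn1 hn2 hn5 hn4
  intro P hP A hA1 hA2 hsum
  have hn0 : (0 : ℝ) < n := by exact_mod_cast (by omega : 0 < n)
  have hn3' : (3 : ℝ) ≤ n := by exact_mod_cast hn3
  set L : ℝ := Real.log n with hL
  have hL1 : 1 ≤ L := by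
    rw [hL, Real.le_log_iff_exp_le hn0]
    exact (Real.exp_one_lt_d9.le.trans (by norm_num)).trans hn3'
  have hexpL : Real.exp L = n := Real.exp_log hn0
  have : Nonempty (Fin n) := ⟨⟨0, by omega⟩⟩
  have hA0 : 0 < A := by linarith
  -- the size
  set k : ℕ := ⌈(4 - ε) * L / A⌉₊ with hk
  have hr0 : 0 ≤ (4 - ε) * L / A := by
    apply div_nonneg _ hA0.le
    nlinarith
  have hk1 : (4 - ε) * L / A ≤ k := Nat.le_ceil _
  have hk2 : (k : ℝ) ≤ (4 - ε) * L / A + 1 := (Nat.ceil_lt_add_one hr0).le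
  have hkx : x₀ ≤ k := by
    have h1 : 3 * L / (2 * Λ) ≤ (4 - ε) * L / A := by
      apply div_le_div₀ (by nlinarith) (by nlinarith) hA0 hA2
    have h2 : |x₀| + 1 ≤ 3 * L / (2 * Λ) := by
      rw [le_div_iff₀ (by positivity)]
      have h3 : 2 * Λ * (|x₀| + 1) / 3 ≤ L := hn4
      linarith
    linarith [le_abs_self x₀]
  have hk0 : 0 < k := by
    rw [hk, Nat.ceil_pos]
    apply div_pos _ hA0
    nlinarith
  have hk0' : (0 : ℝ) < k := by exact_mod_cast hk0
  have hk5 : (k : ℝ) ≤ 5 * L := by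
    have h1 : (4 - ε) * L / A ≤ 4 * L := by
      rw [div_le_iff₀ hA0]
      nlinarith [mul_nonneg (by linarith : (0:ℝ) ≤ L) (by linarith : (0:ℝ) ≤ A - 1)]
    linarith
  -- the colour and the regular set
  obtain ⟨b, hb⟩ := exists_colour (N := (n : ℝ) ^ 2) hsum
  obtain ⟨X, hXne, hXcard, hXrow⟩ := exists_regular (cost P b) (cost_comm P b) (cost_self P b)
    (cost_nonneg ha hP b) hκ0 (E₀ := A / 2) (by linarith) (by rw [Fintype.card_fin]; exact hb)
  rw [Fintype.card_fin] at hXcard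
  set m : ℕ := X.card with hm
  have hm1 : (n : ℝ) ≤ m * D := by
    have h1 : Real.exp (-(A / 2 / κ)) * D ≥ 1 := by
      rw [hD, ← Real.exp_add]
      apply Real.one_le_exp
      have : A / 2 / κ ≤ Λ / κ := by
        apply div_le_div_of_nonneg_right _ hκ0.le
        linarith
      linarith
    calc (n : ℝ) = n * 1 := (mul_one _).symm
      _ ≤ n * (Real.exp (-(A / 2 / κ)) * D) := by gcongr
      _ = n * Real.exp (-(A / 2 / κ)) * D := by ring
      _ ≤ m * D := by gcongr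
  set l : ℕ := m / k with hl
  have hkl : k * l ≤ m := Nat.mul_div_le m k
  have hkl2 : (m : ℝ) ≤ k * (l + 1) := by
    have : m < k * (m / k + 1) := Nat.lt_mul_div_succ m hk0
    have h2 : (m : ℝ) < k * (l + 1) := by exact_mod_cast this
    exact h2.le
  -- `l` is large
  have hlκ : 1 / κ ≤ l := by
    have hD0 : 0 < D := by linarith
    have h1 : 10 * D * (1 / κ) * L ^ 2 ≤ n := by
      have h2 : 50 * D * (1 / κ) * L ^ 2 ≤ n := by
        have := hn2
        rwa [Real.rpow_one] at this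
      have h3 : 0 ≤ 40 * (D * (1 / κ) * L ^ 2) := by positivity
      calc 10 * D * (1 / κ) * L ^ 2 ≤ 10 * D * (1 / κ) * L ^ 2 + 40 * (D * (1 / κ) * L ^ 2) :=
            le_add_of_nonneg_right h3
        _ = 50 * D * (1 / κ) * L ^ 2 := by ring
        _ ≤ n := h2
    have h2 : 10 * (1 / κ) * L ^ 2 * D ≤ m * D := by
      calc 10 * (1 / κ) * L ^ 2 * D = 10 * D * (1 / κ) * L ^ 2 := by ring
        _ ≤ m * D := h1.trans hm1
    have h3 : 10 * (1 / κ) * L ^ 2 ≤ m := le_of_mul_le_mul_right h2 hD0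
    have h4 : (m : ℝ) ≤ 5 * L * (l + 1) := hkl2.trans (by gcongr)
    have h5 : 2 * (1 / κ) * L * (5 * L) ≤ (l + 1) * (5 * L) := by nlinarith
    have h6 : 2 * (1 / κ) * L ≤ l + 1 := le_of_mul_le_mul_right h5 (by positivity)
    have h7 : 1 ≤ 1 / κ := by
      rw [le_div_iff₀ hκ0]
      linarith
    nlinarith
  have hl1 : (1 : ℝ) ≤ l := by
    refine le_trans ?_ hlκ
    rw [le_div_iff₀ hκ0]
    linarith
  have hl0 : 0 < l := by exact_mod_cast (lt_of_lt_of_le one_pos hl1)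
  have hl0' : (0 : ℝ) < l := by linarith
  obtain ⟨φ, hφ, hφX⟩ := exists_array X hkl
  -- the parameters
  set h₀ : ℝ := A / 2 + κ / 2 with hh₀
  have hh₀0 : 0 < h₀ := by positivity
  set m' : ℝ := k * (h₀ * (1 + κ)) with hm'
  have hrow : ∀ j x, ∑ j', ∑ y, cost P b (φ j x) (φ j' y) ≤ l * m' := by
    intro j x
    have h1 := sum_array_le X φ hφ hφX (fun v => cost P b (φ j x) v)
      fun v => cost_nonneg ha hP b _ v
    have h2 := hXrow (φ j x) (hφX j x)
    have h3 : (m : ℝ) * h₀ ≤ l * m' := by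
      calc (m : ℝ) * h₀ ≤ k * (l + 1) * h₀ := by gcongr
        _ ≤ k * (l * (1 + κ)) * h₀ := by
            have h4 : (l : ℝ) + 1 ≤ l * (1 + κ) := by
              have : 1 ≤ l * κ := by
                rwa [div_le_iff₀ hκ0] at hlκ
              linarith
            gcongr
        _ = l * m' := by rw [hm']; ring
    linarith
  set K : ℝ := k * (h₀ * (1 + κ) + η₁) with hK
  have hK0 : 0 ≤ K := by positivity
  have hbad : (Fintype.card (Fin k) : ℝ) *
      Real.exp (t * m' + Fintype.card (Fin k) * (t * (-Real.log a)) ^ 2 - t * K) ≤ 1 / 2 := by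
    rw [Fintype.card_fin]
    have h1 : t * m' + k * (t * (-Real.log a)) ^ 2 - t * K = -(c * k) := by
      rw [hm', hK, hc, ← hΛ]
      ring
    rw [h1]
    exact hx₀ k hkx
  have hM0 : (0 : ℝ) ≤ (n : ℝ) ^ (2 - η) := by positivity
  have hmain := prob_robust_le ha (by linarith) hP b hl0 φ hφ hrow ht0.le htΛ hK0 hbad hM0
  rw [Fintype.card_fin] at hmain
  -- the bound for `K`
  have hKle : K / 2 ≤ (1 - 3 * ε / 20) * L + (Λ / 2 + 1) := by
    have hσ : h₀ * (1 + κ) + η₁ ≤ A / 2 + ε / 20 := by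
      have h1 : κ * A ≤ κ * (2 * Λ) := by gcongr
      have h2 : κ * κ ≤ κ * 1 := by gcongr
      have h3 : h₀ * (1 + κ) = A / 2 + (κ / 2 + κ * A / 2 + κ * κ / 2) := by
        rw [hh₀]
        ring
      rw [h3, hη₁]
      linarith
    have h1 : K / 2 ≤ ((4 - ε) * L / A + 1) * (A / 2 + ε / 20) / 2 := by
      rw [hK]
      have : (k : ℝ) * (h₀ * (1 + κ) + η₁) ≤ ((4 - ε) * L / A + 1) * (A / 2 + ε / 20) :=
        mul_le_mul hk2 hσ (by positivity) (by positivity)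
      linarith
    have h2 : ((4 - ε) * L / A + 1) * (A / 2 + ε / 20) / 2 =
        (4 - ε) * L / 4 + (4 - ε) * L / A * (ε / 40) + (A / 4 + ε / 40) := by
      field_simp
      ring
    have h3 : (4 - ε) * L / A * (ε / 40) ≤ 4 * L * (ε / 40) := by
      have : (4 - ε) * L / A ≤ 4 * L := by
        rw [div_le_iff₀ hA0]
        nlinarith [mul_nonneg (by linarith : (0:ℝ) ≤ L) (by linarith : (0:ℝ) ≤ A - 1)]
      gcongr
    have h4 : A / 4 + ε / 40 ≤ Λ / 2 + 1 := by linarith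
    linarith
  -- the final estimate
  have hnL : (n : ℝ) ≤ 10 * L * l * D := by
    have h3 : (m : ℝ) ≤ 10 * L * l := by
      calc (m : ℝ) ≤ k * (l + 1) := hkl2
        _ ≤ 5 * L * (l + 1) := by gcongr
        _ ≤ 5 * L * (l + l) := by gcongr
        _ = 10 * L * l := by ring
    calc (n : ℝ) ≤ m * D := hm1
      _ ≤ 10 * L * l * D := by gcongr
  have hq : (k : ℝ) * (Real.exp (K / 2) / l) ≤ (n : ℝ) ^ (-(ε / 10)) := by
    have h1 : Real.exp (K / 2) ≤ (n : ℝ) ^ (1 - 3 * ε / 20) * Real.exp (Λ / 2 + 1) := by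
      rw [Real.rpow_def_of_pos hn0, ← Real.exp_add]
      refine Real.exp_le_exp.mpr ?_
      linarith
    have h4 : (n : ℝ) ^ (1 - 3 * ε / 20) = n * (n : ℝ) ^ (-(3 * ε / 20)) := by
      rw [show (1 - 3 * ε / 20 : ℝ) = 1 + -(3 * ε / 20) by ring, Real.rpow_add hn0, Real.rpow_one]
    have h5 : (n : ℝ) ^ (-(ε / 10)) = (n : ℝ) ^ (ε / 20) * (n : ℝ) ^ (-(3 * ε / 20)) := by
      rw [← Real.rpow_add hn0]
      congr 1
      ring
    rw [h5, mul_div_assoc', div_le_iff₀ hl0']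
    have hp : 0 < (n : ℝ) ^ (-(3 * ε / 20)) := by positivity
    calc (k : ℝ) * Real.exp (K / 2)
        ≤ 5 * L * (n * (n : ℝ) ^ (-(3 * ε / 20)) * Real.exp (Λ / 2 + 1)) := by
          rw [← h4]
          gcongr
      _ ≤ 5 * L * (10 * L * l * D * (n : ℝ) ^ (-(3 * ε / 20)) * Real.exp (Λ / 2 + 1)) := by
          gcongr
      _ = (200 * D * Real.exp (Λ / 2 + 1) * L ^ 2) * ((n : ℝ) ^ (-(3 * ε / 20)) * l / 4) := by
          ring
      _ ≤ (n : ℝ) ^ (ε / 20) * ((n : ℝ) ^ (-(3 * ε / 20)) * l / 4) := by gcongr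
      _ ≤ (n : ℝ) ^ (ε / 20) * ((n : ℝ) ^ (-(3 * ε / 20)) * l) := by
          have h6 : 0 ≤ (n : ℝ) ^ (-(3 * ε / 20)) * l := by positivity
          gcongr
          linarith
      _ = _ := by ring
  have hq1 : (n : ℝ) ^ (-(ε / 10)) ≤ 1 :=
    Real.rpow_le_one_of_one_le_of_nonpos (by linarith) (by linarith)
  have hkl' : (k : ℝ) / l ≤ 50 * L ^ 2 * D / n := by
    rw [div_le_div_iff₀ hl0' hn0]
    calc (k : ℝ) * n ≤ 5 * L * (10 * L * l * D) := by gcongr
      _ = 50 * L ^ 2 * D * l := by ring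
  have hkl1 : (k : ℝ) / l ≤ 1 := by
    refine hkl'.trans ?_
    rw [div_le_one hn0]
    have h2 : 50 * D * (1 / κ) * L ^ 2 ≤ n := by
      have := hn2
      rwa [Real.rpow_one] at this
    have h3 : 1 ≤ 1 / κ := by
      rw [le_div_iff₀ hκ0]
      linarith
    calc 50 * L ^ 2 * D = 50 * D * 1 * L ^ 2 := by ring
      _ ≤ 50 * D * (1 / κ) * L ^ 2 := by gcongr
      _ ≤ n := h2
  have hsumle := sum_terms_le (t₀ := t₀) hl0 (Real.exp_pos (K / 2)).le ha
    (by linarith : a ≤ 1) hkl1 hq hq1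
  have hqt : ((n : ℝ) ^ (-(ε / 10))) ^ t₀ ≤ (n : ℝ) ^ (-2 : ℝ) := by
    rw [← Real.rpow_natCast, ← Real.rpow_mul hn0.le]
    refine Real.rpow_le_rpow_of_exponent_le (by linarith) ?_
    have h1 : 20 ≤ t₀ * ε := by
      rwa [div_le_iff₀ hε] at ht₀'
    linarith
  have hn2' : (n : ℝ) ^ (-2 : ℝ) = 1 / (n : ℝ) ^ 2 := by
    rw [Real.rpow_neg hn0.le, one_div]
    norm_num
  have hbound : ∑ i ∈ range (k + 1), (k.choose i : ℝ) * ((if 2 ≤ i then
      min (Real.exp (K / 2) ^ i) (a⁻¹ ^ (i ^ 2)) else 0) / (l : ℝ) ^ i) ≤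
      26000 * L ^ 5 * D ^ 2 * E₀ / (n : ℝ) ^ 2 := by
    have h1 : (k : ℝ) + 1 ≤ 10 * L := by linarith [hk5, hk5]
    have h2 : ((k : ℝ) / l) ^ 2 ≤ 2500 * L ^ 4 * D ^ 2 / (n : ℝ) ^ 2 := by
      calc ((k : ℝ) / l) ^ 2 ≤ (50 * L ^ 2 * D / n) ^ 2 :=
            pow_le_pow_left₀ (by positivity) hkl' 2
        _ = _ := by
            rw [div_pow]
            ring
    have h3 : (1 : ℝ) ≤ L ^ 4 * D ^ 2 * E₀ := by
      have h4 : (1 : ℝ) ≤ L ^ 4 := one_le_pow₀ hL1
      have h5 : (1 : ℝ) ≤ D ^ 2 := one_le_pow₀ hD1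
      calc (1 : ℝ) = 1 * 1 * 1 := by norm_num
        _ ≤ L ^ 4 * D ^ 2 * E₀ := by gcongr
    calc _ ≤ ((k : ℝ) + 1) * (((k : ℝ) / l) ^ 2 * E₀ + ((n : ℝ) ^ (-(ε / 10))) ^ t₀) := hsumle
      _ ≤ (10 * L) * ((2500 * L ^ 4 * D ^ 2 / (n : ℝ) ^ 2) * E₀ + 1 / (n : ℝ) ^ 2) := by
          rw [← hn2']
          gcongr
      _ = 10 * L * (2500 * (L ^ 4 * D ^ 2 * E₀) + 1) / (n : ℝ) ^ 2 := by ring
      _ ≤ 10 * L * (2600 * (L ^ 4 * D ^ 2 * E₀)) / (n : ℝ) ^ 2 := by
          gcongr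
          linarith
      _ = _ := by ring
  have hM1 : (1 : ℝ) ≤ (n : ℝ) ^ (2 - η) :=
    Real.one_le_rpow (by linarith) (by linarith)
  have hP01 : ∀ e, P e ∈ Set.Icc (0 : ℝ) 1 := fun e =>
    ⟨ha.le.trans (hP e).1, (hP e).2.trans (by linarith)⟩
  have hset : {c : Sym2 (Fin n) → Bool | ∃ c' : Sym2 (Fin n) → Bool,
      (hammingDist c c' : ℝ) ≤ (n : ℝ) ^ (2 - η) ∧
      ¬ HasHomogeneousSet c' ((4 - ε) * L / A)} ⊆
      {c | ∃ c' : Sym2 (Fin n) → Bool, (hammingDist c c' : ℝ) ≤ (n : ℝ) ^ (2 - η) ∧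
        ¬ ∃ T : Finset (Fin n), T.card = k ∧ ∀ u ∈ T, ∀ v ∈ T, u ≠ v → c' s(u, v) = b} := by
    rintro c ⟨c', hc', hno⟩
    refine ⟨c', hc', ?_⟩
    rintro ⟨T, hT, hTc⟩
    exact hno ⟨T, by rw [hT]; exact hk1, b, hTc⟩
  have hpow : (n : ℝ) ^ (2 - η) / (n : ℝ) ^ 2 = (n : ℝ) ^ (-(η / 2)) * (n : ℝ) ^ (-(η / 2)) := by
    rw [← Real.rpow_add hn0, div_eq_iff (by positivity), ← Real.rpow_natCast (n : ℝ) 2,
      ← Real.rpow_add hn0]
    congr 1
    push_cast
    ring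
  calc _ ≤ _ := prob_mono hP01 hset
    _ ≤ _ := hmain
    _ ≤ 8 * ((n : ℝ) ^ (2 - η) + (n : ℝ) ^ (2 - η)) * (5 * L) ^ 2 *
        (26000 * L ^ 5 * D ^ 2 * E₀ / (n : ℝ) ^ 2) := by gcongr
    _ = 10400000 * D ^ 2 * E₀ * L ^ 7 * ((n : ℝ) ^ (2 - η) / (n : ℝ) ^ 2) := by ring
    _ ≤ 11000000 * D ^ 2 * E₀ * L ^ 7 * ((n : ℝ) ^ (2 - η) / (n : ℝ) ^ 2) := by
        have h1 : 0 ≤ D ^ 2 * E₀ * L ^ 7 * ((n : ℝ) ^ (2 - η) / (n : ℝ) ^ 2) := by positivity
        nlinarith
    _ ≤ (n : ℝ) ^ (η / 2) * ((n : ℝ) ^ (2 - η) / (n : ℝ) ^ 2) := by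
        gcongr
    _ = (n : ℝ) ^ (-(η / 2)) := by
        rw [hpow, ← mul_assoc, ← Real.rpow_add hn0]
        simp

/-- `-log p - log (1 - p)` lies between `log 4` and `2 log (1 / a)`. -/
lemma entropy_bounds {a p : ℝ} (ha : 0 < a) (hp : p ∈ Set.Icc a (1 - a)) :
    Real.log 4 ≤ -Real.log p - Real.log (1 - p) ∧
      -Real.log p - Real.log (1 - p) ≤ 2 * (-Real.log a) := by
  have hp0 : 0 < p := ha.trans_le hp.1
  have hp1 : 0 < 1 - p := by linarith [hp.2]
  constructor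
  · have h1 : Real.log (p * (1 - p)) ≤ Real.log (1 / 4) := by
      refine Real.log_le_log (by positivity) ?_
      nlinarith [sq_nonneg (p - 1 / 2)]
    rw [Real.log_mul hp0.ne' hp1.ne', one_div, Real.log_inv] at h1
    linarith
  · have h1 := Real.log_le_log ha hp.1
    have h2 := Real.log_le_log ha (show a ≤ 1 - p by linarith [hp.2])
    linarith

/-- **Theorem.**  Let `0 < a`, `0 < ε` and `0 < η ≤ 2`.  For all large `n`, for every random
colouring `c` of the pairs of `n` vertices with independent colours and probabilities in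
`[a, 1 - a]`, with probability at least `1 - n ^ (-η / 2)` all colourings `c'` that differ from
`c` in at most `n ^ (2 - η)` pairs have a homogeneous set of size at least `(4 - ε) log n / A`,
where `A` is the average of `log (1 / (p (1 - p)))` over the pairs. -/
theorem smoothed {a ε η : ℝ} (ha : 0 < a) (hε : 0 < ε) (hη : 0 < η) (hη2 : η ≤ 2) :
    ∀ᶠ n : ℕ in atTop, ∀ P : Sym2 (Fin n) → ℝ,
      (∀ e, P e ∈ Set.Icc a (1 - a)) → ∀ A : ℝ,
      ∑ u, ∑ v, (if u = v then 0 else Real.log (1 / (P s(u, v) * (1 - P s(u, v))))) ≤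
        A * (n : ℝ) ^ 2 →
      1 - (n : ℝ) ^ (-(η / 2)) ≤ prob P {c | ∀ c' : Sym2 (Fin n) → Bool,
        (hammingDist c c' : ℝ) ≤ (n : ℝ) ^ (2 - η) →
        HasHomogeneousSet c' ((4 - ε) * Real.log n / A)} := by
  by_cases ha1 : a ≤ 1 / 2
  swap
  · filter_upwards [eventually_ge_atTop 1] with n hn P hP
    have := hP s(⟨0, by omega⟩, ⟨0, by omega⟩)
    exact absurd (this.1.trans this.2) (by linarith)
  set ε' : ℝ := min ε 1 with hε'
  have hε'0 : 0 < ε' := lt_min hε one_pos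
  have hε'1 : ε' ≤ 1 := min_le_right _ _
  filter_upwards [core_bound ha ha1 hε'0 hε'1 hη hη2, eventually_ge_atTop 4] with n hn hn4
  intro P hP A hsum
  have hn4' : (4 : ℝ) ≤ n := by exact_mod_cast hn4
  have hn0 : (0 : ℝ) < n := by linarith
  have hcost : ∀ u v : Fin n, u ≠ v → Real.log (1 / (P s(u, v) * (1 - P s(u, v)))) =
      -Real.log (P s(u, v)) - Real.log (1 - P s(u, v)) := by
    intro u v _
    have h0 : 0 < P s(u, v) := ha.trans_le (hP _).1
    have h1 : 0 < 1 - P s(u, v) := by linarith [(hP s(u, v)).2]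
    rw [one_div, Real.log_inv, Real.log_mul h0.ne' h1.ne']
    ring
  set S : ℝ := ∑ u : Fin n, ∑ v : Fin n,
    (if u = v then 0 else -Real.log (P s(u, v)) - Real.log (1 - P s(u, v))) with hS
  have hSA : S ≤ A * (n : ℝ) ^ 2 := by
    refine le_trans (le_of_eq ?_) hsum
    refine sum_congr rfl fun u _ => sum_congr rfl fun v _ => ?_
    by_cases h : u = v
    · simp [h]
    · rw [if_neg h, if_neg h, hcost u v h]
  have hSle : S ≤ 2 * (-Real.log a) * (n : ℝ) ^ 2 := by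
    have hΛ : 0 ≤ 2 * (-Real.log a) := by
      have := Real.log_nonpos ha.le (by linarith)
      linarith
    calc S ≤ ∑ _u : Fin n, ∑ _v : Fin n, 2 * (-Real.log a) := by
          refine sum_le_sum fun u _ => sum_le_sum fun v _ => ?_
          split_ifs
          · exact hΛ
          · exact (entropy_bounds ha (hP _)).2
      _ = _ := by
          simp only [sum_const, card_univ, Fintype.card_fin, nsmul_eq_mul]
          ring
  have hSge : (n : ℝ) ^ 2 ≤ S := by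
    have h1 : (1.38 : ℝ) ≤ Real.log 4 := by
      have h2 : Real.log 4 = 2 * Real.log 2 := by
        rw [show (4 : ℝ) = 2 ^ 2 by norm_num, Real.log_pow]
        norm_num
      have := Real.log_two_gt_d9
      rw [h2]
      linarith
    have h2 : ∑ u : Fin n, ∑ v : Fin n, (if u = v then 0 else (1.38 : ℝ)) ≤ S := by
      refine sum_le_sum fun u _ => sum_le_sum fun v _ => ?_
      split_ifs
      · exact le_rfl
      · exact h1.trans (entropy_bounds ha (hP _)).1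
    have h3 : ∑ u : Fin n, ∑ v : Fin n, (if u = v then 0 else (1.38 : ℝ)) =
        1.38 * (n * n) - 1.38 * n := by
      have h4 : ∀ u v : Fin n, (if u = v then 0 else (1.38 : ℝ)) =
          1.38 - (if u = v then (1.38 : ℝ) else 0) := by
        intro u v
        split_ifs <;> ring
      simp only [h4, sum_sub_distrib, sum_const, card_univ, Fintype.card_fin, nsmul_eq_mul,
        sum_ite_eq, mem_univ, if_true]
      ring
    rw [h3] at h2
    nlinarith
  -- the parameter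
  set A' : ℝ := min A (2 * (-Real.log a)) with hA'
  have hSA' : S ≤ A' * (n : ℝ) ^ 2 := by
    rcases min_choice A (2 * (-Real.log a)) with h | h
    · rw [hA', h]
      exact hSA
    · rw [hA', h]
      exact hSle
  have hA'1 : 1 ≤ A' := by
    have h1 : 1 * (n : ℝ) ^ 2 ≤ A' * (n : ℝ) ^ 2 := by linarith
    exact le_of_mul_le_mul_right h1 (by positivity)
  have hmain := hn P hP A' hA'1 (min_le_right _ _) hSA'
  have hP01 : ∀ e, P e ∈ Set.Icc (0 : ℝ) 1 := fun e =>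
    ⟨ha.le.trans (hP e).1, (hP e).2.trans (by linarith)⟩
  have hL : 0 ≤ Real.log n := Real.log_nonneg (by linarith)
  have hsize : (4 - ε) * Real.log n / A ≤ (4 - ε') * Real.log n / A' := by
    have h1 : A' ≤ A := min_le_left _ _
    have h2 : (4 - ε) * Real.log n ≤ (4 - ε') * Real.log n :=
      mul_le_mul_of_nonneg_right (by linarith [min_le_left ε 1]) hL
    have h3 : 0 ≤ (4 - ε') * Real.log n := mul_nonneg (by linarith) hL
    calc (4 - ε) * Real.log n / A ≤ (4 - ε') * Real.log n / A := by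
          apply div_le_div_of_nonneg_right h2
          linarith
      _ ≤ _ := div_le_div_of_nonneg_left h3 (by linarith) h1
  have h2 := prob_compl P {c | ∀ c' : Sym2 (Fin n) → Bool,
    (hammingDist c c' : ℝ) ≤ (n : ℝ) ^ (2 - η) → HasHomogeneousSet c' ((4 - ε) * Real.log n / A)}
  have h3 : prob P {c | ∀ c' : Sym2 (Fin n) → Bool,
      (hammingDist c c' : ℝ) ≤ (n : ℝ) ^ (2 - η) →
      HasHomogeneousSet c' ((4 - ε) * Real.log n / A)}ᶜ ≤
      prob P {c | ∃ c' : Sym2 (Fin n) → Bool, (hammingDist c c' : ℝ) ≤ (n : ℝ) ^ (2 - η) ∧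
        ¬ HasHomogeneousSet c' ((4 - ε') * Real.log n / A')} := by
    apply prob_mono hP01
    intro c hc
    rw [Set.mem_compl_iff, Set.mem_ofPred_eq] at hc
    push Not at hc
    obtain ⟨c', hc', hno⟩ := hc
    refine ⟨c', hc', ?_⟩
    rintro ⟨T, hT, b, hb⟩
    exact hno ⟨T, hsize.trans hT, b, hb⟩
  linarith

end Pool.Agent.H71.Smooth
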